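import Pool.Agent.Helper30.THC.Incl
import Pool.Agent.Helper38.TQ.NonCrit

/-!
# Certificates of chains of closed sets over rings
-/

set_option autoImplicit false

namespace Pool.Agent.Helper30.THC

open MvPolynomial
open Pool.Agent.Helper16 (Place IsFunctionField)
open Pool.Agent.Helper36 (step iter iter_zero iter_succ iter_succ' iter_add iter_map)
open Pool.Agent.Helper38.TQ
open Pool.Agent.Helper30.TKN
open Pool.Agent.Helper30.RED
open Pool.Agent.Helper72.TH (Chain)
open Pool.Agent.Helper38.Dml (pmap pjac GoodAt)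

variable {ν : ℕ}

/-- A power of `g` lies in the ideal generated by the family. -/
def InRad {A : Type} [CommRing A] {ι : Type} (G : ι → MvPolynomial (Fin (ν + 1)) A)
    (g : MvPolynomial (Fin (ν + 1)) A) : Prop := ∃ r : ℕ, g ^ r ∈ Ideal.span (Set.range G)

theorem InRad.map {A B : Type} [CommRing A] [CommRing B] (φ : A →+* B) {ι : Type}
    {G : ι → MvPolynomial (Fin (ν + 1)) A} {g : MvPolynomial (Fin (ν + 1)) A} (h : InRad G g) :
    InRad (fun i => MvPolynomial.map φ (G i)) (MvPolynomial.map φ g) := by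
  obtain ⟨r, hr⟩ := h
  refine ⟨r, ?_⟩
  have h1 := Ideal.mem_map_of_mem (MvPolynomial.map φ) hr
  rw [map_pow, Ideal.map_span, ← Set.range_comp] at h1
  exact h1

theorem InRad.eval {E : Type} [Field E] {ι : Type}
    {G : ι → MvPolynomial (Fin (ν + 1)) E} {g : MvPolynomial (Fin (ν + 1)) E} (h : InRad G g)
    {y : Fin (ν + 1) → E} (hy : ∀ i, MvPolynomial.eval y (G i) = 0) :
    MvPolynomial.eval y g = 0 := by
  obtain ⟨r, hr⟩ := h
  have h1 : Ideal.span (Set.range G) ≤ RingHom.ker (MvPolynomial.eval y) := by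
    rw [Ideal.span_le]
    rintro _ ⟨i, rfl⟩
    exact hy i
  have h2 := h1 hr
  rw [RingHom.mem_ker, map_pow] at h2
  exact eq_zero_of_pow_eq_zero h2

/-- The certificate is defined over every ring which contains some finite set. -/
theorem InRad.descend {k : Type} [Field k] {ι : Type} [Finite ι]
    {G : ι → MvPolynomial (Fin (ν + 1)) k} {g : MvPolynomial (Fin (ν + 1)) k} (h : InRad G g) :
    ∃ S₀ : Finset k, ∀ (A : Type) [CommRing A] (j : A →+* k), Function.Injective j →
      (∀ c ∈ S₀, c ∈ Set.range j) → ∀ (GA : ι → MvPolynomial (Fin (ν + 1)) A)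
      (gA : MvPolynomial (Fin (ν + 1)) A), (∀ i, MvPolynomial.map j (GA i) = G i) →
      MvPolynomial.map j gA = g → InRad GA gA := by
  classical
  haveI := Fintype.ofFinite ι
  obtain ⟨r, hr⟩ := h
  obtain ⟨q, hq⟩ := (Submodule.mem_span_range_iff_exists_fun _).1 hr
  refine ⟨Finset.univ.biUnion fun i => (q i).coeffs, fun A _ j hj hS GA gA hG hg => ⟨r, ?_⟩⟩
  have h1 : ∀ i, ∃ qA, MvPolynomial.map j qA = q i := fun i =>
    NonCrit_liftMv j (q i) fun c hc => hS c (Finset.mem_biUnion.2 ⟨i, Finset.mem_univ _, hc⟩)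
  choose qA hqA using h1
  rw [Ideal.span, Submodule.mem_span_range_iff_exists_fun]
  refine ⟨qA, ?_⟩
  apply MvPolynomial.map_injective j hj
  rw [map_sum, map_pow, hg, ← hq]
  refine Finset.sum_congr rfl fun i _ => ?_
  rw [smul_eq_mul, smul_eq_mul, map_mul, hqA, hG]

/-- The Jacobian determinant, over a ring. -/
noncomputable def jR {A : Type} [CommRing A] (F : Fin (ν + 1) → MvPolynomial (Fin (ν + 1)) A) :
    MvPolynomial (Fin (ν + 1)) A :=
  (Matrix.of fun i j => pderiv j (F i)).det

theorem jR_map {A B : Type} [CommRing A] [CommRing B] (φ : A →+* B)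
    (F : Fin (ν + 1) → MvPolynomial (Fin (ν + 1)) A) :
    jR (fun i => MvPolynomial.map φ (F i)) = MvPolynomial.map φ (jR F) := by
  unfold jR
  rw [RingHom.map_det]
  congr 1
  ext1 i j
  rw [RingHom.mapMatrix_apply, Matrix.map_apply, Matrix.of_apply, Matrix.of_apply, pderiv_map]

theorem eval_jR {A : Type} [CommRing A] (F : Fin (ν + 1) → MvPolynomial (Fin (ν + 1)) A)
    (y : Fin (ν + 1) → A) : eval y (jR F) = (pjac F y).det := by
  unfold jR
  rw [RingHom.map_det]
  rfl

theorem comp_map {A B : Type} [CommRing A] [CommRing B] (φ : A →+* B)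
    (F : Fin (ν + 1) → MvPolynomial (Fin (ν + 1)) A) (g : MvPolynomial (Fin (ν + 1)) A) :
    MvPolynomial.map φ (aeval F g) =
      aeval (fun i => MvPolynomial.map φ (F i)) (MvPolynomial.map φ g) := by
  induction g using MvPolynomial.induction_on with
  | C a => simp
  | add p q hp hq => simp only [map_add, hp, hq]
  | mul_X p i hp => simp only [map_mul, hp, aeval_X, map_X]

theorem eval_comp {A : Type} [CommRing A] (F : Fin (ν + 1) → MvPolynomial (Fin (ν + 1)) A)
    (g : MvPolynomial (Fin (ν + 1)) A) (y : Fin (ν + 1) → A) :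
    eval y (aeval F g) = eval (pmap F y) g := by
  induction g using MvPolynomial.induction_on with
  | C a => simp
  | add p q hp hq => simp only [map_add, hp, hq]
  | mul_X p i hp =>
    simp only [map_mul, hp, aeval_X, eval_X]
    rfl

/-- The certificates of a chain. -/
structure CertR {A : Type} [CommRing A] (F : Fin (ν + 1) → MvPolynomial (Fin (ν + 1)) A)
    (R : MvPolynomial (Fin (ν + 1)) A) {n : ℕ} (W : Fin n → MvPolynomial (Fin (ν + 1)) A)
    (S : ℕ → Finset (Fin n)) (t : ℕ) : Prop where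
  nz : ∀ i, InRad F (X i)
  inv : ∀ i < t, ∀ j ∈ S i, InRad (fun l : {l // l ∈ S i} => W l) (aeval F (W j))
  down : ∀ i < t, ∀ j ∈ S (i + 1),
    InRad (fun l : Option {l // l ∈ S i} => l.elim (jR F * R) fun l => W l) (aeval F (W j))
  empty : ∀ i, InRad (fun l : {l // l ∈ S t} => W l) (X i)
  start : ∀ j ∈ S 0, InRad (fun _ : Unit => R) (aeval F (W j))

theorem CertR.map {A B : Type} [CommRing A] [CommRing B] (φ : A →+* B)
    {F : Fin (ν + 1) → MvPolynomial (Fin (ν + 1)) A}
    {R : MvPolynomial (Fin (ν + 1)) A} {n : ℕ} {W : Fin n → MvPolynomial (Fin (ν + 1)) A}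
    {S : ℕ → Finset (Fin n)} {t : ℕ} (h : CertR F R W S t) :
    CertR (fun i => MvPolynomial.map φ (F i)) (MvPolynomial.map φ R)
      (fun j => MvPolynomial.map φ (W j)) S t := by
  refine ⟨fun i => ?_, fun i hi j hj => ?_, fun i hi j hj => ?_, fun i => ?_, fun j hj => ?_⟩
  · have h1 := (h.nz i).map φ
    rwa [map_X] at h1
  · have h1 := (h.inv i hi j hj).map φ
    rwa [comp_map] at h1
  · have h1 := (h.down i hi j hj).map φ
    rw [comp_map] at h1
    convert h1 using 2 with l
    rcases l with _ | l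
    · simp only [Option.elim_none, map_mul, jR_map]
    · rfl
  · have h1 := (h.empty i).map φ
    rwa [map_X] at h1
  · have h1 := (h.start j hj).map φ
    rwa [comp_map] at h1

/-- Certificates over an algebraically closed field. -/
theorem certR_of_chain {k : Type} [Field k] [Algebra k ℂ]
    {F : Fin (ν + 1) → MvPolynomial (Fin (ν + 1)) k}
    (hnz : ∀ x : Fin (ν + 1) → ℂ, (∀ i, aeval x (F i) = 0) → x = 0)
    {R : MvPolynomial (Fin (ν + 1)) k} {n : ℕ} {W : Fin n → MvPolynomial (Fin (ν + 1)) k}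
    {δ : Fin n → ℕ} {S : ℕ → Finset (Fin n)} {t : ℕ} (hc : Chain ℂ F (jf F * R) W δ S t)
    (hs : ∀ x : Fin (ν + 1) → ℂ, aeval x R = 0 →
      ∀ j ∈ S 0, aeval (fun l => aeval x (F l)) (W j) = 0) : CertR F R W S t := by
  have key : ∀ {ι : Type} [Fintype ι] (G : ι → MvPolynomial (Fin (ν + 1)) k)
      (g : MvPolynomial (Fin (ν + 1)) k),
      (∀ x : Fin (ν + 1) → ℂ, (∀ i, aeval x (G i) = 0) → aeval x g = 0) → InRad G g := by
    intro ι _ G g hG
    obtain ⟨r, q, hq⟩ := exists_cert G g hG
    refine ⟨r, ?_⟩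
    rw [← hq]
    exact Ideal.sum_mem _ fun i _ => Ideal.mul_mem_left _ _ (Ideal.subset_span ⟨i, rfl⟩)
  refine ⟨fun i => key _ _ fun x hx => ?_, fun i hi j hj => key _ _ fun x hx => ?_,
    fun i hi j hj => key _ _ fun x hx => ?_, fun i => key _ _ fun x hx => ?_,
    fun j hj => key _ _ fun x hx => ?_⟩
  · rw [hnz x hx, aeval_X, Pi.zero_apply]
  · rw [aeval_comp]
    exact hc.inv i hi x (fun l hl => hx ⟨l, hl⟩) j hj
  · rw [aeval_comp]
    exact hc.down i hi x (fun l hl => hx (some ⟨l, hl⟩)) (hx none) j hj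
  · rw [hc.empty x fun l hl => hx ⟨l, hl⟩, aeval_X, Pi.zero_apply]
  · rw [aeval_comp]
    exact hs x (hx ()) j hj

/-- The certificates are defined over every ring which contains some finite set. -/
theorem CertR.descend {k : Type} [Field k] {F : Fin (ν + 1) → MvPolynomial (Fin (ν + 1)) k}
    {R : MvPolynomial (Fin (ν + 1)) k} {n : ℕ} {W : Fin n → MvPolynomial (Fin (ν + 1)) k}
    {S : ℕ → Finset (Fin n)} {t : ℕ} (h : CertR F R W S t) :
    ∃ S₀ : Finset k, ∀ (A : Type) [CommRing A] (j : A →+* k), Function.Injective j →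
      (∀ c ∈ S₀, c ∈ Set.range j) → ∀ (FA : Fin (ν + 1) → MvPolynomial (Fin (ν + 1)) A)
      (RA : MvPolynomial (Fin (ν + 1)) A) (WA : Fin n → MvPolynomial (Fin (ν + 1)) A),
      (∀ i, MvPolynomial.map j (FA i) = F i) → MvPolynomial.map j RA = R →
      (∀ l, MvPolynomial.map j (WA l) = W l) → CertR FA RA WA S t := by
  classical
  choose s1 h1 using fun i => (h.nz i).descend
  have e2 : ∀ p : Fin t × Fin n, ∃ S₀ : Finset k, p.2 ∈ S p.1 →
      ∀ (A : Type) [CommRing A] (j : A →+* k), Function.Injective j →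
      (∀ c ∈ S₀, c ∈ Set.range j) →
      ∀ (GA : {l // l ∈ S p.1} → MvPolynomial (Fin (ν + 1)) A)
      (gA : MvPolynomial (Fin (ν + 1)) A), (∀ i, MvPolynomial.map j (GA i) = W i) →
      MvPolynomial.map j gA = aeval F (W p.2) → InRad GA gA := by
    intro p
    by_cases hp : p.2 ∈ S p.1
    · obtain ⟨s, hs⟩ := (h.inv p.1 p.1.2 p.2 hp).descend
      exact ⟨s, fun _ => hs⟩
    · exact ⟨∅, fun h => absurd h hp⟩
  choose s2 h2 using e2
  have e3 : ∀ p : Fin t × Fin n, ∃ S₀ : Finset k, p.2 ∈ S (p.1 + 1) →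
      ∀ (A : Type) [CommRing A] (j : A →+* k), Function.Injective j →
      (∀ c ∈ S₀, c ∈ Set.range j) →
      ∀ (GA : Option {l // l ∈ S p.1} → MvPolynomial (Fin (ν + 1)) A)
      (gA : MvPolynomial (Fin (ν + 1)) A),
      (∀ i, MvPolynomial.map j (GA i) = i.elim (jR F * R) fun l => W l) →
      MvPolynomial.map j gA = aeval F (W p.2) → InRad GA gA := by
    intro p
    by_cases hp : p.2 ∈ S (p.1 + 1)
    · obtain ⟨s, hs⟩ := (h.down p.1 p.1.2 p.2 hp).descend
      exact ⟨s, fun _ => hs⟩
    · exact ⟨∅, fun h => absurd h hp⟩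
  choose s3 h3 using e3
  choose s4 h4 using fun i => (h.empty i).descend
  have e5 : ∀ p : Fin n, ∃ S₀ : Finset k, p ∈ S 0 →
      ∀ (A : Type) [CommRing A] (j : A →+* k), Function.Injective j →
      (∀ c ∈ S₀, c ∈ Set.range j) →
      ∀ (GA : Unit → MvPolynomial (Fin (ν + 1)) A)
      (gA : MvPolynomial (Fin (ν + 1)) A), (∀ i, MvPolynomial.map j (GA i) = R) →
      MvPolynomial.map j gA = aeval F (W p) → InRad GA gA := by
    intro p
    by_cases hp : p ∈ S 0
    · obtain ⟨s, hs⟩ := (h.start p hp).descend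
      exact ⟨s, fun _ => hs⟩
    · exact ⟨∅, fun h => absurd h hp⟩
  choose s5 h5 using e5
  refine ⟨(Finset.univ.biUnion s1 ∪ Finset.univ.biUnion s2) ∪ (Finset.univ.biUnion s3 ∪
    (Finset.univ.biUnion s4 ∪ Finset.univ.biUnion s5)), ?_⟩
  intro A _ j hj hS FA RA WA hF hR hW
  have hS' : ∀ {ι : Type} [Fintype ι] (s : ι → Finset k) (i : ι),
      Finset.univ.biUnion s ⊆ (Finset.univ.biUnion s1 ∪ Finset.univ.biUnion s2) ∪
        (Finset.univ.biUnion s3 ∪ (Finset.univ.biUnion s4 ∪ Finset.univ.biUnion s5)) →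
      ∀ c ∈ s i, c ∈ Set.range j := fun s i hs c hc =>
    hS c (hs (Finset.mem_biUnion.2 ⟨i, Finset.mem_univ _, hc⟩))
  have hcomp : ∀ l, MvPolynomial.map j (aeval FA (WA l)) = aeval F (W l) := by
    intro l
    rw [comp_map, hW, funext hF]
  have hjR : MvPolynomial.map j (jR FA * RA) = jR F * R := by
    rw [map_mul, ← jR_map, hR, funext hF]
  refine ⟨fun i => ?_, fun i hi l hl => ?_, fun i hi l hl => ?_, fun i => ?_, fun l hl => ?_⟩
  · exact h1 i A j hj (hS' s1 i (by
      intro v hv
      simp only [Finset.mem_union]; tauto)) FA (X i) hF (map_X _ _)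
  · exact h2 (⟨i, hi⟩, l) hl A j hj (hS' s2 _ (by
      intro v hv
      simp only [Finset.mem_union]; tauto)) _ _ (fun i => hW i) (hcomp l)
  · refine h3 (⟨i, hi⟩, l) hl A j hj (hS' s3 _ (by
      intro v hv
      simp only [Finset.mem_union]; tauto)) _ _ ?_ (hcomp l)
    rintro (_ | i)
    · exact hjR
    · exact hW i
  · exact h4 i A j hj (hS' s4 i (by
      intro v hv
      simp only [Finset.mem_union]; tauto)) _ _ (fun i => hW i) (map_X _ _)
  · exact h5 l hl A j hj (hS' s5 l (by
      intro v hv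
      simp only [Finset.mem_union]; tauto)) _ _ (fun _ => hR) (hcomp l)

/-- Orbits which meet `R = 0` are good. -/
theorem goodAt_of_cert {E : Type} [Field E] {F : Fin (ν + 1) → MvPolynomial (Fin (ν + 1)) E}
    {R : MvPolynomial (Fin (ν + 1)) E} {n : ℕ} {W : Fin n → MvPolynomial (Fin (ν + 1)) E}
    {S : ℕ → Finset (Fin n)} {t : ℕ} (h : CertR F R W S t) {y : Fin (ν + 1) → E} (hy : y ≠ 0)
    {m : ℕ} (hm : eval ((pmap F)^[m] y) R = 0) : GoodAt F y := by
  have hne : ∀ l, (pmap F)^[l] y ≠ 0 := by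
    intro l
    induction l with
    | zero => exact hy
    | succ l ih =>
      rw [Function.iterate_succ_apply']
      intro h0
      apply ih
      funext i
      have h1 := (h.nz i).eval (y := (pmap F)^[l] y) fun j => congrFun h0 j
      rwa [eval_X] at h1
  -- the closed sets
  have hfwd : ∀ i < t, ∀ l l', l ≤ l' → (∀ j ∈ S i, eval ((pmap F)^[l] y) (W j) = 0) →
      ∀ j ∈ S i, eval ((pmap F)^[l'] y) (W j) = 0 := by
    intro i hi l l' hll h0
    induction l', hll using Nat.le_induction with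
    | base => exact h0
    | succ l' _ ih =>
      intro j hj
      rw [Function.iterate_succ_apply', ← eval_comp]
      exact (h.inv i hi j hj).eval fun l => ih l l.2
  have hdown : ∀ i < t, ∀ l, (∀ j ∈ S i, eval ((pmap F)^[l] y) (W j) = 0) →
      eval ((pmap F)^[l] y) (jR F * R) = 0 →
      ∀ j ∈ S (i + 1), eval ((pmap F)^[l + 1] y) (W j) = 0 := by
    intro i hi l h0 h1 j hj
    rw [Function.iterate_succ_apply', ← eval_comp]
    refine (h.down i hi j hj).eval ?_
    rintro (_ | l)
    · exact h1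
    · exact h0 l l.2
  have hempty : ∀ l, ¬ ∀ j ∈ S t, eval ((pmap F)^[l] y) (W j) = 0 := by
    intro l h0
    apply hne l
    funext i
    have h1 := (h.empty i).eval (y := (pmap F)^[l] y) fun j => h0 j j.2
    rwa [eval_X] at h1
  have hstart : ∀ j ∈ S 0, eval ((pmap F)^[m + 1] y) (W j) = 0 := by
    intro j hj
    rw [Function.iterate_succ_apply', ← eval_comp]
    exact (h.start j hj).eval fun _ => hm
  intro l
  refine ⟨hne l, fun hper hdet => ?_⟩
  obtain ⟨r, hr, hper⟩ := hper
  have hper' : ∀ s, (pmap F)^[l + r * s] y = (pmap F)^[l] y := by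
    intro s
    induction s with
    | zero => rfl
    | succ s ih =>
      rw [show l + r * (s + 1) = r + (l + r * s) by ring, Function.iterate_add_apply, ih]
      exact hper
  have hdet' : eval ((pmap F)^[l] y) (jR F * R) = 0 := by
    rw [map_mul, eval_jR, hdet, zero_mul]
  -- the points of the cycle lie on all the closed sets
  have key : ∀ i ≤ t, ∀ j ∈ S i, eval ((pmap F)^[l] y) (W j) = 0 := by
    intro i
    induction i with
    | zero =>
      intro _ j hj
      rcases Nat.eq_zero_or_pos t with rfl | ht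
      · exact absurd hstart (hempty _)
      · rw [← hper' (m + 1)]
        refine hfwd 0 ht (m + 1) _ ?_ hstart j hj
        have : m + 1 ≤ r * (m + 1) := Nat.le_mul_of_pos_left _ hr
        omega
    | succ i ih =>
      intro hi j hj
      have h1 := hdown i (by omega) l (ih (by omega)) hdet'
      rcases Nat.lt_or_ge (i + 1) t with h2 | h2
      · rw [← hper' 1]
        exact hfwd (i + 1) h2 (l + 1) _ (by omega) h1 j hj
      · have h3 : i + 1 = t := le_antisymm hi h2
        rw [h3] at h1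
        exact absurd h1 (hempty _)
  exact hempty l (key t le_rfl)

end Pool.Agent.Helper30.THC
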