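import Pool.Agent.Helper38.TQK.Growth
import Pool.Agent.Helper30.RED.Special
import Pool.Agent.Helper72.TH.Defs

/-!
# Function fields: the absolute values of the places satisfy the product formula
-/

set_option autoImplicit false

namespace Pool.Agent.Helper30.THC

open MvPolynomial Height Height.AdmissibleAbsValues
open Pool.Agent.Helper16 (Place IsFunctionField)
open Pool.Agent.Helper36 (step iter)
open Pool.Agent.Helper38.TQ
open Pool.Agent.Helper30.TKN
open Pool.Agent.Helper29.TG
open Pool.Agent.Helper72.TH (Sm)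

open scoped Classical in
/-- The real number belonging to a value. -/
noncomputable def FFAbs_ex (a : WithZero (Multiplicative ℤ)) : ℝ :=
  if a = 0 then 0 else Real.exp ((WithZero.log a : ℤ) : ℝ)

theorem FFAbs_ex_zero : FFAbs_ex 0 = 0 := by
  rw [FFAbs_ex, if_pos rfl]

theorem FFAbs_ex_ne {a : WithZero (Multiplicative ℤ)} (ha : a ≠ 0) :
    FFAbs_ex a = Real.exp ((WithZero.log a : ℤ) : ℝ) := by
  rw [FFAbs_ex, if_neg ha]

theorem FFAbs_ex_pos {a : WithZero (Multiplicative ℤ)} (ha : a ≠ 0) : 0 < FFAbs_ex a := by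
  rw [FFAbs_ex_ne ha]
  exact Real.exp_pos _

theorem FFAbs_ex_nonneg (a : WithZero (Multiplicative ℤ)) : 0 ≤ FFAbs_ex a := by
  by_cases ha : a = 0
  · rw [ha, FFAbs_ex_zero]
  · exact (FFAbs_ex_pos ha).le

theorem FFAbs_ex_one : FFAbs_ex 1 = 1 := by
  rw [FFAbs_ex_ne one_ne_zero, WithZero.log_one, Int.cast_zero, Real.exp_zero]

theorem FFAbs_ex_mul (a c : WithZero (Multiplicative ℤ)) :
    FFAbs_ex (a * c) = FFAbs_ex a * FFAbs_ex c := by
  by_cases ha : a = 0
  · rw [ha, zero_mul, FFAbs_ex_zero, zero_mul]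
  by_cases hc : c = 0
  · rw [hc, mul_zero, FFAbs_ex_zero, mul_zero]
  rw [FFAbs_ex_ne ha, FFAbs_ex_ne hc, FFAbs_ex_ne (mul_ne_zero ha hc), WithZero.log_mul ha hc,
    Int.cast_add, Real.exp_add]

theorem FFAbs_ex_pow (a : WithZero (Multiplicative ℤ)) (n : ℕ) :
    FFAbs_ex (a ^ n) = FFAbs_ex a ^ n := by
  induction n with
  | zero => rw [pow_zero, pow_zero, FFAbs_ex_one]
  | succ n ih => rw [pow_succ, pow_succ, FFAbs_ex_mul, ih]

theorem FFAbs_ex_le {a c : WithZero (Multiplicative ℤ)} : FFAbs_ex a ≤ FFAbs_ex c ↔ a ≤ c := by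
  by_cases ha : a = 0
  · rw [ha, FFAbs_ex_zero]
    exact iff_of_true (FFAbs_ex_nonneg c) zero_le
  by_cases hc : c = 0
  · rw [hc, FFAbs_ex_zero]
    refine iff_of_false (not_le.2 (FFAbs_ex_pos ha)) ?_
    rw [le_zero_iff]
    exact ha
  rw [FFAbs_ex_ne ha, FFAbs_ex_ne hc, Real.exp_le_exp, Int.cast_le, WithZero.log_le_log ha hc]

theorem FFAbs_ex_lt {a c : WithZero (Multiplicative ℤ)} : FFAbs_ex a < FFAbs_ex c ↔ a < c := by
  rw [← not_le, ← not_le, FFAbs_ex_le]

theorem FFAbs_ex_inj {a c : WithZero (Multiplicative ℤ)} (h : FFAbs_ex a = FFAbs_ex c) : a = c :=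
  le_antisymm (FFAbs_ex_le.1 h.le) (FFAbs_ex_le.1 h.ge)

theorem FFAbs_ex_max (a c : WithZero (Multiplicative ℤ)) :
    FFAbs_ex (max a c) = max (FFAbs_ex a) (FFAbs_ex c) := by
  rcases le_total a c with h | h
  · rw [max_eq_right h, max_eq_right (FFAbs_ex_le.2 h)]
  · rw [max_eq_left h, max_eq_left (FFAbs_ex_le.2 h)]

/-- The product of exponentials. -/
theorem FFAbs_finprod_exp {ι : Type*} (f : ι → ℤ) (hf : (Function.support f).Finite) :
    ∏ᶠ b, Real.exp ((f b : ℤ) : ℝ) = Real.exp ((∑ᶠ b, f b : ℤ) : ℝ) := by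
  have h1 : Function.mulSupport (fun b => Real.exp ((f b : ℤ) : ℝ)) ⊆
      (hf.toFinset : Set ι) := by
    intro b hb
    rw [Function.mem_mulSupport] at hb
    rw [Set.Finite.coe_toFinset, Function.mem_support]
    intro h0
    apply hb
    rw [h0, Int.cast_zero, Real.exp_zero]
  have h2 : Function.support f ⊆ (hf.toFinset : Set ι) := by
    rw [Set.Finite.coe_toFinset]
  rw [finprod_eq_prod_of_mulSupport_subset _ h1, finsum_eq_sum_of_support_subset _ h2,
    Int.cast_sum, Real.exp_sum]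

variable {ν : ℕ} {k K : Type} [Field k] [Field K] [Algebra k K]

theorem FFAbs_val (b : Place k K) (x : K) [Decidable (x = 0)] :
    (if x = 0 then 0 else Real.exp ((WithZero.log (b.val x) : ℤ) : ℝ)) = FFAbs_ex (b.val x) := by
  by_cases hx : x = 0
  · rw [if_pos hx, hx, map_zero, FFAbs_ex_zero]
  · rw [if_neg hx, FFAbs_ex_ne]
    simpa using hx

open scoped Classical in
/-- The real absolute value of a place. -/
noncomputable def absOf (b : Place k K) : AbsoluteValue K ℝ where
  toFun x := if x = 0 then 0 else Real.exp ((WithZero.log (b.val x) : ℤ) : ℝ)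
  map_mul' := by
    intro x y
    rw [FFAbs_val, FFAbs_val, FFAbs_val, map_mul, FFAbs_ex_mul]
  nonneg' := by
    intro x
    change 0 ≤ (if x = 0 then 0 else Real.exp ((WithZero.log (b.val x) : ℤ) : ℝ))
    rw [FFAbs_val]
    exact FFAbs_ex_nonneg _
  eq_zero' := by
    intro x
    change (if x = 0 then 0 else Real.exp ((WithZero.log (b.val x) : ℤ) : ℝ)) = 0 ↔ x = 0
    by_cases hx : x = 0
    · rw [if_pos hx]
      exact iff_of_true rfl hx
    · rw [if_neg hx]
      exact iff_of_false (Real.exp_pos _).ne' hx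
  add_le' := by
    intro x y
    change (if x + y = 0 then 0 else Real.exp ((WithZero.log (b.val (x + y)) : ℤ) : ℝ)) ≤
      (if x = 0 then 0 else Real.exp ((WithZero.log (b.val x) : ℤ) : ℝ)) +
      (if y = 0 then 0 else Real.exp ((WithZero.log (b.val y) : ℤ) : ℝ))
    rw [FFAbs_val, FFAbs_val, FFAbs_val]
    have h1 := FFAbs_ex_le.2 (b.val.map_add x y)
    rw [FFAbs_ex_max] at h1
    exact h1.trans (max_le_add_of_nonneg (FFAbs_ex_nonneg _) (FFAbs_ex_nonneg _))

theorem FFAbs_eq (b : Place k K) (x : K) : absOf b x = FFAbs_ex (b.val x) := by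
  classical
  have h1 : absOf b x =
      (if x = 0 then 0 else Real.exp ((WithZero.log (b.val x) : ℤ) : ℝ)) := by
    unfold absOf
    rfl
  rw [h1, FFAbs_val]

theorem absOf_le_iff (b : Place k K) (x y : K) : absOf b x ≤ absOf b y ↔ b.val x ≤ b.val y := by
  rw [FFAbs_eq, FFAbs_eq, FFAbs_ex_le]

theorem absOf_injective : Function.Injective (absOf (k := k) (K := K)) := by
  intro b c h
  have h1 : b.val = c.val := by
    ext x
    have h2 : absOf b x = absOf c x := by rw [h]
    rw [FFAbs_eq, FFAbs_eq] at h2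
    exact FFAbs_ex_inj h2
  cases b
  cases c
  simp only at h1
  subst h1
  rfl

theorem FFAbs_na (b : Place k K) : IsNonarchimedean (absOf b) := by
  intro x y
  rw [FFAbs_eq, FFAbs_eq, FFAbs_eq, ← FFAbs_ex_max]
  exact FFAbs_ex_le.2 (b.val.map_add x y)

theorem FFAbs_nm (b : Place k K) (x : Fin (ν + 1) → K) :
    nm (absOf b) x = FFAbs_ex (nrm b x) := by
  refine le_antisymm (nm_le (FFAbs_ex_nonneg _) fun i => ?_) ?_
  · rw [FFAbs_eq]
    exact FFAbs_ex_le.2 (val_le_nrm b x i)
  · obtain ⟨i, hi⟩ := exists_val_eq_nrm b x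
    rw [← hi, ← FFAbs_eq]
    exact le_nm (absOf b) x i

theorem FFAbs_range (g : AbsoluteValue K ℝ → ℝ) :
    ∏ᶠ v : Set.range (absOf (k := k) (K := K)), g v.val = ∏ᶠ b : Place k K, g (absOf b) :=
  (finprod_comp_equiv (Equiv.ofInjective _ (absOf_injective (k := k) (K := K)))
    (f := fun v : Set.range (absOf (k := k) (K := K)) => g v.val)).symm

/-- The absolute values of the places of a function field. -/
@[reducible] noncomputable def ffAbs [IsAlgClosed k] (hK : IsFunctionField k K) :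
    AdmissibleAbsValues K where
  archAbsVal := 0
  nonarchAbsVal := Set.range (absOf (k := k) (K := K))
  isNonarchimedean := by
    rintro _ ⟨b, rfl⟩
    exact FFAbs_na b
  hasFiniteMulSupport := by
    intro x hx
    have h1 := (finsum_log hK x hx).1
    have h2 : (Function.mulSupport fun v : Set.range (absOf (k := k) (K := K)) => v.val x) ⊆
        (fun b : Place k K => (⟨absOf b, ⟨b, rfl⟩⟩ : Set.range (absOf (k := k) (K := K)))) ''
          (Function.support fun b : Place k K => WithZero.log (b.val x)) := by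
      rintro ⟨_, ⟨b, rfl⟩⟩ hb
      refine ⟨b, ?_, rfl⟩
      rw [Function.mem_mulSupport] at hb
      rw [Function.mem_support]
      intro h0
      apply hb
      change absOf b x = 1
      rw [FFAbs_eq, FFAbs_ex_ne (by simpa using hx), h0, Int.cast_zero, Real.exp_zero]
    exact (h1.image _).subset h2
  product_formula := by
    intro x hx
    rw [Multiset.map_zero, Multiset.prod_zero, one_mul]
    have h1 := FFAbs_range (k := k) (K := K) fun v => v x
    rw [h1]
    have h2 : ∀ b : Place k K, absOf b x = Real.exp ((WithZero.log (b.val x) : ℤ) : ℝ) := by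
      intro b
      rw [FFAbs_eq, FFAbs_ex_ne (by simpa using hx)]
    rw [finprod_congr h2, FFAbs_finprod_exp _ (finsum_log hK x hx).1, (finsum_log hK x hx).2,
      Int.cast_zero, Real.exp_zero]

theorem sm_absOf_iff (b : Place k K) (g : MvPolynomial (Fin (ν + 1)) K) (e : ℕ)
    {x : Fin (ν + 1) → K} (hx : x ≠ 0) :
    Sm (absOf b) g e x ↔ b.val (eval x g) < nrm b x ^ e := by
  unfold Pool.Agent.Helper72.TH.Sm
  rw [FFAbs_nm, FFAbs_eq, ← FFAbs_ex_pow, FFAbs_ex_lt]

theorem exists_absOf_notMem [IsAlgClosed k] (hK : IsFunctionField k K)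
    {B : Set (AbsoluteValue K ℝ)} (hB : B.Finite) : ∃ b : Place k K, absOf b ∉ B := by
  have := Pool.Agent.Helper30.RED.infinite_places hK
  by_contra hcon
  push Not at hcon
  have h1 : (Set.univ : Set (Place k K)).Finite :=
    (hB.preimage (absOf_injective (k := k) (K := K)).injOn).subset fun b _ => hcon b
  exact Set.infinite_univ h1

/-- The two heights. -/
theorem logHeight_ffAbs [IsAlgClosed k] (hK : IsFunctionField k K) {x : Fin (ν + 1) → K}
    (hx : x ≠ 0) : @logHeight K _ (ffAbs hK) _ x = (ht k x : ℝ) := by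
  let _ : AdmissibleAbsValues K := ffAbs hK
  have h0 : mulHeight x = ∏ᶠ b : Place k K, Real.exp ((WithZero.log (nrm b x) : ℤ) : ℝ) := by
    rw [mulHeight_eq hx]
    change ((0 : Multiset (AbsoluteValue K ℝ)).map fun v => ⨆ i, v (x i)).prod *
      ∏ᶠ v : Set.range (absOf (k := k) (K := K)), (⨆ i, v.val (x i)) = _
    rw [Multiset.map_zero, Multiset.prod_zero, one_mul,
      FFAbs_range (k := k) (K := K) fun v => ⨆ i, v (x i)]
    refine finprod_congr fun b => ?_
    have h1 := FFAbs_nm b x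
    rw [FFAbs_ex_ne (nrm_ne_zero hx)] at h1
    exact h1
  rw [logHeight_eq_log_mulHeight, h0, FFAbs_finprod_exp _ (nrm_support hK x hx), Real.log_exp]
  rfl

/-- Unbounded heights tend to infinity. -/
theorem tendsto_ffAbs [IsAlgClosed k] [Algebra K ℂ] (hK : IsFunctionField k K) {d : ℕ}
    {F : Fin (ν + 1) → MvPolynomial (Fin (ν + 1)) K}
    (hF : IsEndo d fun i => map (algebraMap K ℂ) (F i)) {x : Fin (ν + 1) → K} (hx : x ≠ 0)
    (hunb : ∀ B : ℤ, ∃ n, B < ht k (iter F x n)) :
    Filter.Tendsto (fun n => @logHeight K _ (ffAbs hK) _ (iter F x n)) Filter.atTop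
      Filter.atTop := by
  obtain ⟨n₁, hn₁⟩ := ht_growth hK hF hx hunb 1
  have h1 : ∀ n, @logHeight K _ (ffAbs hK) _ (iter F x n) = ((ht k (iter F x n) : ℤ) : ℝ) :=
    fun n => logHeight_ffAbs hK (iter_ne_zeroK hF hx n)
  have h2 : Filter.Tendsto (fun n : ℕ => (n : ℝ)) Filter.atTop Filter.atTop :=
    tendsto_natCast_atTop_atTop
  refine Filter.tendsto_atTop_mono' _ ?_ h2
  filter_upwards [Filter.eventually_ge_atTop n₁] with n hn
  rw [h1]
  have h3 := hn₁ n hn
  have h4 : (n : ℤ) ≤ ht k (iter F x n) := by linarith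
  exact_mod_cast h4

end Pool.Agent.Helper30.THC
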