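import Pool.Agent.Helper30.RED.CurveC
import Pool.Agent.Helper72.TH.Defs

/-!
# Inclusions of closed sets and chains of closed sets specialise
-/

set_option autoImplicit false

namespace Pool.Agent.Helper30.THC

open MvPolynomial
open Pool.Agent.Helper16 (Place IsFunctionField)
open Pool.Agent.Helper36 (step iter iter_zero iter_succ iter_succ' iter_add iter_map)
open Pool.Agent.Helper38.TQ
open Pool.Agent.Helper30.TKN
open Pool.Agent.Helper30.RED
open Pool.Agent.Helper72.TH (Chain)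

variable {ν : ℕ}

theorem aeval_eq_eval_map {K : Type} [Field K] [Algebra K ℂ] (z : Fin (ν + 1) → ℂ)
    (P : MvPolynomial (Fin (ν + 1)) K) : aeval z P = eval z (map (algebraMap K ℂ) P) := by
  rw [eval_map]
  rfl

theorem aevalC (z : Fin (ν + 1) → ℂ) (P : MvPolynomial (Fin (ν + 1)) ℂ) :
    aeval z P = eval z P := by
  rw [aeval_def, Algebra.algebraMap_self, eval₂_id]

/-- The certificate of an inclusion. -/
theorem exists_cert {K : Type} [Field K] [Algebra K ℂ] {κ : Type} [Fintype κ]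
    (H : κ → MvPolynomial (Fin (ν + 1)) K) (g : MvPolynomial (Fin (ν + 1)) K)
    (hH : ∀ z : Fin (ν + 1) → ℂ, (∀ j, aeval z (H j) = 0) → aeval z g = 0) :
    ∃ (r : ℕ) (q : κ → MvPolynomial (Fin (ν + 1)) K), ∑ j, q j * H j = g ^ r := by
  have h2 : g ∈ (Ideal.span (Set.range H)).radical := by
    rw [← MvPolynomial.vanishingIdeal_zeroLocus_eq_radical (K := ℂ),
      MvPolynomial.mem_vanishingIdeal_iff]
    intro x hx
    rw [MvPolynomial.mem_zeroLocus_iff] at hx
    exact hH x fun j => hx _ (Ideal.subset_span ⟨j, rfl⟩)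
  obtain ⟨r, hr⟩ := h2
  obtain ⟨q, hq⟩ := (Submodule.mem_span_range_iff_exists_fun _).1 hr
  exact ⟨r, q, by simpa only [smul_eq_mul] using hq⟩

/-- An inclusion of closed sets specialises at almost all places. -/
theorem incl_spec {k K : Type} [Field k] [IsAlgClosed k] [Algebra k ℂ] [Field K] [Algebra k K]
    [Algebra K ℂ] (hK : IsFunctionField k K) {κ : Type} [Finite κ]
    (H : κ → MvPolynomial (Fin (ν + 1)) K) (g : MvPolynomial (Fin (ν + 1)) K)
    (hH : ∀ z : Fin (ν + 1) → ℂ, (∀ j, aeval z (H j) = 0) → aeval z g = 0) :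
    ∃ A : Set (Place k K), A.Finite ∧ ∀ b ∉ A, ∀ (h : κ → MvPolynomial (Fin (ν + 1)) k)
      (γ : MvPolynomial (Fin (ν + 1)) k), (∀ j, RedP b (H j) (h j)) → RedP b g γ →
      ∀ z : Fin (ν + 1) → ℂ, (∀ j, aeval z (h j) = 0) → aeval z γ = 0 := by
  classical
  haveI := Fintype.ofFinite κ
  obtain ⟨r, q, hq⟩ := exists_cert H g hH
  refine ⟨⋃ j : κ, {b : Place k K | ¬ ∀ m, b.val ((q j).coeff m) ≤ 1},
    Set.finite_iUnion fun j => Good2_fin hK (q j), fun b hb h γ hh hγ z hz => ?_⟩
  rw [Set.mem_iUnion, not_exists] at hb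
  have hint : ∀ j m, b.val ((q j).coeff m) ≤ 1 := fun j => not_not.1 (hb j)
  choose q' hq' using fun j => redP_exists' hK b (hint j)
  have h3 : ∑ j, q' j * h j = γ ^ r := by
    refine RedP.unique (P := g ^ r) ?_ (hγ.pow _)
    rw [← hq]
    exact RedP.sum _ fun j _ => (hq' j).mul (hh j)
  have h4 := congrArg (fun p => aeval z p) h3
  simp only [map_sum, map_mul, map_pow, hz, mul_zero, Finset.sum_const_zero] at h4
  exact eq_zero_of_pow_eq_zero h4.symm

/-- Finitely many conditions which hold at almost all places hold together. -/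
theorem all_places {k K : Type} [Field k] [Field K] [Algebra k K] {ι : Type} [Finite ι]
    {P : ι → Place k K → Prop}
    (h : ∀ i, ∃ A : Set (Place k K), A.Finite ∧ ∀ b ∉ A, P i b) :
    ∃ A : Set (Place k K), A.Finite ∧ ∀ b ∉ A, ∀ i, P i b := by
  choose A hA h using h
  refine ⟨⋃ i, A i, Set.finite_iUnion hA, fun b hb i => h i b fun hi => hb ?_⟩
  exact Set.mem_iUnion.2 ⟨i, hi⟩

/-- The value of a composition. -/
theorem aeval_comp {K L : Type} [Field K] [Field L] [Algebra K L]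
    (F : Fin (ν + 1) → MvPolynomial (Fin (ν + 1)) K) (g : MvPolynomial (Fin (ν + 1)) K)
    (z : Fin (ν + 1) → L) : aeval z (aeval F g) = aeval (fun l => aeval z (F l)) g := by
  rw [comp_aeval_apply]

/-- A chain of closed sets specialises at almost all places. -/
theorem chain_spec {k K : Type} [Field k] [IsAlgClosed k] [Algebra k ℂ] [Field K] [Algebra k K]
    [Algebra K ℂ] (hK : IsFunctionField k K) {F : Fin (ν + 1) → MvPolynomial (Fin (ν + 1)) K}
    {q : MvPolynomial (Fin (ν + 1)) K} {n : ℕ} {W : Fin n → MvPolynomial (Fin (ν + 1)) K}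
    {δ : Fin n → ℕ} {S : ℕ → Finset (Fin n)} {t : ℕ} (hc : Chain ℂ F q W δ S t) :
    ∃ A : Set (Place k K), A.Finite ∧ ∀ b ∉ A,
      ∀ (f : Fin (ν + 1) → MvPolynomial (Fin (ν + 1)) k) (p : MvPolynomial (Fin (ν + 1)) k)
        (w : Fin n → MvPolynomial (Fin (ν + 1)) k), (∀ i, RedP b (F i) (f i)) → RedP b q p →
        (∀ j, RedP b (W j) (w j)) → Chain ℂ f p w δ S t := by
  classical
  -- invariance
  obtain ⟨A₁, hA₁, h₁⟩ := all_places (k := k) (K := K) (ι := Fin t × Fin n)
    (P := fun e b => e.2 ∈ S e.1 → ∀ (h : {j // j ∈ S e.1} → MvPolynomial (Fin (ν + 1)) k)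
      (γ : MvPolynomial (Fin (ν + 1)) k), (∀ j : {j // j ∈ S e.1}, RedP b (W j) (h j)) →
      RedP b (aeval F (W e.2)) γ →
      ∀ z : Fin (ν + 1) → ℂ, (∀ j, aeval z (h j) = 0) → aeval z γ = 0) (by
    intro e
    by_cases he : e.2 ∈ S e.1
    · obtain ⟨A, hA, h⟩ := incl_spec hK (κ := {j // j ∈ S e.1}) (fun j => W j)
        (aeval F (W e.2)) (fun z hz => by
          rw [aeval_comp]
          exact hc.inv e.1 e.1.2 z (fun j hj => hz ⟨j, hj⟩) e.2 he)
      exact ⟨A, hA, fun b hb _ => h b hb⟩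
    · exact ⟨∅, Set.finite_empty, fun b _ h => absurd h he⟩)
  -- descent
  obtain ⟨A₂, hA₂, h₂⟩ := all_places (k := k) (K := K) (ι := Fin t × Fin n)
    (P := fun e b => e.2 ∈ S (e.1 + 1) →
      ∀ (h : Option {j // j ∈ S e.1} → MvPolynomial (Fin (ν + 1)) k)
      (γ : MvPolynomial (Fin (ν + 1)) k),
      (∀ j : Option {j // j ∈ S e.1}, RedP b (j.elim q fun j => W j) (h j)) →
      RedP b (aeval F (W e.2)) γ →
      ∀ z : Fin (ν + 1) → ℂ, (∀ j, aeval z (h j) = 0) → aeval z γ = 0) (by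
    intro e
    by_cases he : e.2 ∈ S (e.1 + 1)
    · obtain ⟨A, hA, h⟩ := incl_spec hK (κ := Option {j // j ∈ S e.1})
        (fun j => j.elim q fun j => W j)
        (aeval F (W e.2)) (fun z hz => by
          rw [aeval_comp]
          exact hc.down e.1 e.1.2 z (fun j hj => hz (some ⟨j, hj⟩)) (hz none) e.2 he)
      exact ⟨A, hA, fun b hb _ => h b hb⟩
    · exact ⟨∅, Set.finite_empty, fun b _ h => absurd h he⟩)
  -- emptiness
  obtain ⟨A₃, hA₃, h₃⟩ := all_places (k := k) (K := K) (ι := Fin (ν + 1))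
    (P := fun i b => ∀ (h : {j // j ∈ S t} → MvPolynomial (Fin (ν + 1)) k)
      (γ : MvPolynomial (Fin (ν + 1)) k), (∀ j : {j // j ∈ S t}, RedP b (W j) (h j)) →
      RedP b (X i) γ →
      ∀ z : Fin (ν + 1) → ℂ, (∀ j, aeval z (h j) = 0) → aeval z γ = 0) (by
    intro i
    obtain ⟨A, hA, h⟩ := incl_spec hK (κ := {j // j ∈ S t}) (fun j => W j) (X i) (fun z hz => by
      rw [hc.empty z fun j hj => hz ⟨j, hj⟩, aeval_X, Pi.zero_apply])
    exact ⟨A, hA, h⟩)
  refine ⟨A₁ ∪ (A₂ ∪ A₃), hA₁.union (hA₂.union hA₃), fun b hb f p w hf hp hw => ?_⟩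
  rw [Set.mem_union, Set.mem_union, not_or, not_or] at hb
  obtain ⟨hb1, hb2, hb3⟩ := hb
  refine ⟨fun j => redP_hom (hw j) (hc.hom j), ?_, ?_, ?_⟩
  · intro i hi z hz j hj
    rw [← aeval_comp]
    exact h₁ b hb1 (⟨i, hi⟩, j) hj (fun j => w j) _ (fun j => hw j) (redP_aeval (hw j) hf) z
      fun j => hz j j.2
  · intro i hi z hz hq j hj
    rw [← aeval_comp]
    refine h₂ b hb2 (⟨i, hi⟩, j) hj (fun j => j.elim p fun j => w j) _ ?_
      (redP_aeval (hw j) hf) z ?_
    · rintro (_ | j)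
      · exact hp
      · exact hw j
    · rintro (_ | j)
      · exact hq
      · exact hz j j.2
  · intro z hz
    funext i
    have h4 := h₃ b hb3 i (fun j => w j) (X i) (fun j => hw j) (redP_C_X b i) z fun j => hz j j.2
    rwa [aeval_X] at h4

/-- Chains over a subfield of `ℂ` and over `ℂ`. -/
theorem chain_map {K : Type} [Field K] [Algebra K ℂ]
    {F : Fin (ν + 1) → MvPolynomial (Fin (ν + 1)) K}
    {q : MvPolynomial (Fin (ν + 1)) K} {n : ℕ} {W : Fin n → MvPolynomial (Fin (ν + 1)) K}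
    {δ : Fin n → ℕ} {S : ℕ → Finset (Fin n)} {t : ℕ} :
    Chain ℂ (fun i => map (algebraMap K ℂ) (F i)) (map (algebraMap K ℂ) q)
      (fun j => map (algebraMap K ℂ) (W j)) δ S t ↔ Chain ℂ F q W δ S t := by
  have h1 : ∀ (z : Fin (ν + 1) → ℂ) (P : MvPolynomial (Fin (ν + 1)) K),
      aeval z (map (algebraMap K ℂ) P) = aeval z P := fun z P => by
    rw [aevalC, aeval_eq_eval_map]
  constructor
  · intro h
    refine ⟨fun j => hom_of_map _ (h.hom j), ?_, ?_, ?_⟩
    · intro i hi z hz j hj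
      have := h.inv i hi z (fun j hj => by rw [h1]; exact hz j hj) j hj
      simpa only [h1] using this
    · intro i hi z hz hq j hj
      have := h.down i hi z (fun j hj => by rw [h1]; exact hz j hj) (by rw [h1]; exact hq) j hj
      simpa only [h1] using this
    · intro z hz
      exact h.empty z fun j hj => by rw [h1]; exact hz j hj
  · intro h
    refine ⟨fun j => (h.hom j).map _, ?_, ?_, ?_⟩
    · intro i hi z hz j hj
      simp only [h1] at hz ⊢
      exact h.inv i hi z hz j hj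
    · intro i hi z hz hq j hj
      simp only [h1] at hz hq ⊢
      exact h.down i hi z hz hq j hj
    · intro z hz
      simp only [h1] at hz
      exact h.empty z hz

end Pool.Agent.Helper30.THC
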