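import Pool.Agent.Helper30.THC.Incl
import Pool.Agent.Helper30.RED.CurveNI

/-!
# Induction for curves with a class of maps; number fields of definition
-/

set_option autoImplicit false

namespace Pool.Agent.Helper30.THC

open MvPolynomial
open Pool.Agent.Helper16 (Place IsFunctionField)
open Pool.Agent.Helper36 (step iter iter_zero iter_succ iter_succ' iter_add iter_map APSet
  APSet_univ)
open Pool.Agent.Helper38.TQ
open Pool.Agent.Helper30.TKN
open Pool.Agent.Helper30.RED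
open Pool.Agent.Helper33.GC (APSet_inter)

variable {ν : ℕ}

/-- **Induction for curves and a class of maps.** -/
theorem curveN_induct_cl {d N : ℕ}
    (Cl : (Fin (ν + 1) → MvPolynomial (Fin (ν + 1)) ℂ) →
      (Fin N → MvPolynomial (Fin (ν + 1)) ℂ) → Prop)
    (hspec : ∀ (k : Type) [Field k] [IsAlgClosed k] [Algebra k ℂ] (K : IntermediateField k ℂ),
      IsFunctionField k K → ∀ (F : Fin (ν + 1) → MvPolynomial (Fin (ν + 1)) K)
      (W : Fin N → MvPolynomial (Fin (ν + 1)) K),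
      (IsEndo d fun i => map (algebraMap K ℂ) (F i)) →
      Cl (fun i => map (algebraMap K ℂ) (F i)) (fun j => map (algebraMap K ℂ) (W j)) →
      ∃ A : Set (Place k K), A.Finite ∧ ∀ b ∉ A,
        ∀ (f : Fin (ν + 1) → MvPolynomial (Fin (ν + 1)) k)
        (w : Fin N → MvPolynomial (Fin (ν + 1)) k), GoodRed d b F f →
          (∀ j, RedP b (W j) (w j)) →
          Cl (fun i => map (algebraMap k ℂ) (f i)) (fun j => map (algebraMap k ℂ) (w j)))
    (R : Set ℕ → Prop) (hRa : ∀ A, R (APSet A))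
    (hRi : ∀ S T, R S → R T → R (S ∩ T)) (hunb : UnbC ν d)
    (halg : ∀ (f : Fin (ν + 1) → MvPolynomial (Fin (ν + 1)) ℂ)
      (w : Fin N → MvPolynomial (Fin (ν + 1)) ℂ) (a : Fin (ν + 1) → ℂ)
      (S : Finset (MvPolynomial (Fin (ν + 1)) ℂ)), AlgCurve d f a S →
      (∀ j m, IsAlgebraic ℚ ((w j).coeff m)) → Cl f w →
      R {n | ∀ g ∈ S, eval (iter f a n) g = 0})
    {f : Fin (ν + 1) → MvPolynomial (Fin (ν + 1)) ℂ} (hf : IsEndo d f)
    {w₀ : Fin N → MvPolynomial (Fin (ν + 1)) ℂ} (hcl : Cl f w₀) {a : Fin (ν + 1) → ℂ}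
    (ha : a ≠ 0) {S : Set (MvPolynomial (Fin (ν + 1)) ℂ)} (hS : ∀ g ∈ S, ∃ e, g.IsHomogeneous e)
    (hdim : ringKrullDim (MvPolynomial (Fin (ν + 1)) ℂ ⧸ Ideal.span S) ≤ 2) :
    R {n | ∀ g ∈ S, eval (iter f a n) g = 0} := by
  classical
  obtain ⟨S₀, hS₀, hS₀v⟩ := exists_finite_subfamily S
  obtain ⟨l, hl⟩ := exists_two_forms hS hdim
  set r : ℕ := S₀.card with hr
  let p : Fin r → MvPolynomial (Fin (ν + 1)) ℂ := fun j => (S₀.equivFin.symm j : _)
  have hpS : ∀ j, p j ∈ S₀ := fun j => (S₀.equivFin.symm j).2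
  have hpsurj : ∀ s ∈ S₀, ∃ j, p j = s := by
    intro s hs
    refine ⟨S₀.equivFin ⟨s, hs⟩, ?_⟩
    change ((S₀.equivFin.symm (S₀.equivFin ⟨s, hs⟩) : S₀) : MvPolynomial (Fin (ν + 1)) ℂ) = s
    rw [Equiv.symm_apply_apply]
  choose e' he' using fun j => hS (p j) (hS₀ (hpS j))
  let L : ℕ → MvPolynomial (Fin (ν + 1)) ℂ := fun j => ∑ i, C (l j i) * X i
  have hL : ∀ j, (L j).IsHomogeneous 1 := by
    intro j
    refine IsHomogeneous.sum _ _ _ fun i _ => ?_
    have := (isHomogeneous_C (Fin (ν + 1)) (l j i)).mul (isHomogeneous_X ℂ i)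
    simpa using this
  have hLe : ∀ j z, eval z (L j) = ∑ i, l j i * z i := by
    intro j z
    simp [L]
  let w : Fin (r + 2) → MvPolynomial (Fin (ν + 1)) ℂ := Fin.append p ![L 0, L 1]
  have hw1 : ∀ j, w (Fin.castAdd 2 j) = p j := fun j => Fin.append_left _ _ j
  have hw2 : ∀ j, w (Fin.natAdd r j) = ![L 0, L 1] j := fun j => Fin.append_right _ _ j
  let w' : Fin ((r + 2) + N) → MvPolynomial (Fin (ν + 1)) ℂ := Fin.append w w₀
  have hw3 : ∀ j, w' (Fin.castAdd N j) = w j := fun j => Fin.append_left _ _ j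
  have hw4 : ∀ j, w' (Fin.natAdd (r + 2) j) = w₀ j := fun j => Fin.append_right _ _ j
  have hset : {n | ∀ g ∈ S, eval (iter f a n) g = 0} =
      {n | ∀ j : Fin r, eval (iter f a n) (w' (Fin.castAdd N (Fin.castAdd 2 j))) = 0} := by
    ext n
    constructor
    · intro hn j
      rw [hw3, hw1]
      exact hn _ (hS₀ (hpS j))
    · intro hn
      refine hS₀v _ fun s hs => ?_
      obtain ⟨j, rfl⟩ := hpsurj s hs
      rw [← hw1, ← hw3]
      exact hn j
  have hRu : R Set.univ := by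
    obtain ⟨T, hT⟩ := APSet_univ
    rw [hT]
    exact hRa T
  rw [hset]
  refine inductN (d := d) (fun j : Fin r => Fin.castAdd N (Fin.castAdd 2 j)) e'
    (fun f w _ => LData r e' (fun j => w (Fin.castAdd N j)) ∧
      Cl f (fun j => w (Fin.natAdd (r + 2) j))) R hRu hRi ?_ ?_ ?_ f w' a hf ?_ ha ?_
  · intro k _ _ _ K hK F W x hF hC hx B hB
    obtain ⟨A, hA, h⟩ := ldata_spec K hK (W := fun j => W (Fin.castAdd N j)) hC.1
    obtain ⟨A', hA', h'⟩ := hspec k K hK F (fun j => W (Fin.natAdd (r + 2) j)) hF hC.2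
    refine ⟨A ∪ A', hA.union hA', fun b hb f w z hf hw _ => ?_⟩
    rw [Set.mem_union, not_or] at hb
    exact ⟨h b hb.1 (fun j => w (Fin.castAdd N j)) fun j => hw _,
      h' b hb.2 f (fun j => w (Fin.natAdd (r + 2) j)) hf fun j => hw _⟩
  · intro k _ _ _ K hK F W x hF hC hx hub hWh
    obtain ⟨A, hA⟩ := hunb k K hK F x hF hx hub r
      (fun j => W (Fin.castAdd N (Fin.castAdd 2 j)))
      (fun j => ⟨_, hWh j⟩) (by
        refine curveSet_of_forms ?_ hC.1.hom0 hC.1.hom1 fun z hz h0 h1 =>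
          hC.1.noz z (fun j => ?_) h0 h1
        · rintro g ⟨j, rfl⟩
          exact ⟨_, hC.1.hom j⟩
        · exact hz _ ⟨j, rfl⟩)
    rw [hA]
    exact hRa A
  · intro f w a hfa hwa haa hf hC ha hwh
    have hSw : {n | ∀ j : Fin r, eval (iter f a n) (w (Fin.castAdd N (Fin.castAdd 2 j))) = 0} =
        {n | ∀ g ∈ Finset.univ.image fun j : Fin r => w (Fin.castAdd N (Fin.castAdd 2 j)),
          eval (iter f a n) g = 0} := by
      ext n
      simp
    rw [hSw]
    refine halg f (fun j => w (Fin.natAdd (r + 2) j)) a _ ⟨hf, ha, hfa, haa, ?_, ?_, ?_⟩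
      (fun j => hwa _) hC.2
    · intro g hg
      obtain ⟨j, -, rfl⟩ := Finset.mem_image.1 hg
      exact ⟨_, hwh j⟩
    · intro g hg
      obtain ⟨j, -, rfl⟩ := Finset.mem_image.1 hg
      exact hwa _
    · refine krull_le_two (K := ℂ) ?_ hC.1.hom0 hC.1.hom1 ?_
      · intro g hg
        obtain ⟨j, -, rfl⟩ := Finset.mem_image.1 (Finset.mem_coe.1 hg)
        exact ⟨_, hwh j⟩
      · intro z hz h0 h1
        refine hC.1.noz z (fun j => ?_) ((aevalC _ _).symm.trans h0) ((aevalC _ _).symm.trans h1)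
        exact (aevalC _ _).symm.trans
          (hz _ (Finset.mem_coe.2 (Finset.mem_image_of_mem _ (Finset.mem_univ j))))
  · refine ⟨⟨fun j => ?_, ?_, ?_, ?_⟩, ?_⟩
    · rw [hw3, hw1]
      exact he' j
    · rw [hw3, hw2]
      exact hL 0
    · rw [hw3, hw2]
      exact hL 1
    · intro z hz h0 h1
      refine hl z (hS₀v z fun s hs => ?_) ?_
      · obtain ⟨j, rfl⟩ := hpsurj s hs
        rw [← hw1, ← hw3]
        exact hz j
      · intro j hj
        have h2 : j = 0 ∨ j = 1 := by omega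
        rcases h2 with rfl | rfl
        · rw [← hLe, ← h0, hw3, hw2]
          rfl
        · rw [← hLe, ← h1, hw3, hw2]
          rfl
    · simp only [hw4]
      exact hcl
  · intro j
    change (w' (Fin.castAdd N (Fin.castAdd 2 j))).IsHomogeneous (e' j)
    rw [hw3, hw1]
    exact he' j

/-- Algebraic data are defined over a number field. -/
theorem exists_numberField {N : ℕ} {f : Fin (ν + 1) → MvPolynomial (Fin (ν + 1)) ℂ}
    {w : Fin N → MvPolynomial (Fin (ν + 1)) ℂ} {a : Fin (ν + 1) → ℂ}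
    (hfa : ∀ i m, IsAlgebraic ℚ ((f i).coeff m)) (hwa : ∀ j m, IsAlgebraic ℚ ((w j).coeff m))
    (haa : ∀ i, IsAlgebraic ℚ (a i)) :
    ∃ (K : IntermediateField ℚ ℂ) (_ : NumberField K)
      (F : Fin (ν + 1) → MvPolynomial (Fin (ν + 1)) K)
      (W : Fin N → MvPolynomial (Fin (ν + 1)) K) (x : Fin (ν + 1) → K),
      (fun i => map (algebraMap K ℂ) (F i)) = f ∧ (fun j => map (algebraMap K ℂ) (W j)) = w ∧
        (fun i => algebraMap K ℂ (x i)) = a := by
  classical
  set S : Set ℂ := ((⋃ i, ((f i).coeffs : Set ℂ)) ∪ ⋃ j, ((w j).coeffs : Set ℂ)) ∪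
    Set.range a with hS
  have hSf : S.Finite := ((Set.finite_iUnion fun i => (f i).coeffs.finite_toSet).union
    (Set.finite_iUnion fun j => (w j).coeffs.finite_toSet)).union (Set.finite_range a)
  have hSa : ∀ c ∈ S, IsAlgebraic ℚ c := by
    rintro c ((hc | hc) | ⟨i, rfl⟩)
    · obtain ⟨i, hi⟩ := Set.mem_iUnion.1 hc
      obtain ⟨m, hm⟩ := mem_coeffs_iff.1 hi
      rw [hm.2]
      exact hfa i m
    · obtain ⟨i, hi⟩ := Set.mem_iUnion.1 hc
      obtain ⟨m, hm⟩ := mem_coeffs_iff.1 hi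
      rw [hm.2]
      exact hwa i m
    · exact haa i
  set K : IntermediateField ℚ ℂ := IntermediateField.adjoin ℚ S with hKdef
  haveI := hSf.to_subtype
  have hfin : FiniteDimensional ℚ K :=
    IntermediateField.finiteDimensional_adjoin fun x hx => (hSa x hx).isIntegral
  have hnum : NumberField K :=
    { to_charZero := inferInstance
      to_finiteDimensional := by
        have e : (DivisionRing.toRatAlgebra.toModule : Module ℚ K) = K.module' :=
          Subsingleton.elim _ _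
        rw [e]
        exact hfin }
  have hmem : ∀ c ∈ S, c ∈ K := fun c hc => IntermediateField.subset_adjoin ℚ _ hc
  choose F hF using fun i => exists_lift K (p := f i) fun c hc =>
    hmem c (Or.inl (Or.inl (Set.mem_iUnion.2 ⟨i, hc⟩)))
  choose W hW using fun j => exists_lift K (p := w j) fun c hc =>
    hmem c (Or.inl (Or.inr (Set.mem_iUnion.2 ⟨j, hc⟩)))
  exact ⟨K, hnum, F, W, fun i => ⟨a i, hmem _ (Or.inr ⟨i, rfl⟩)⟩, funext hF, funext hW, rfl⟩

end Pool.Agent.Helper30.THC
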