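import Pool.Agent.Helper57.RP.KrullLe
import Pool.Agent.Helper38.TQ.Defs
import Pool.Agent.Helper38.Dml.Good

/-!
# Infinite closed sets meet every hypersurface
-/

set_option autoImplicit false

namespace Pool.Agent.Helper30.THC

open MvPolynomial
open Pool.Agent.Helper36 (homogeneousComponent_mul_of_homogeneous)
open Pool.Agent.Helper57.RP (exists_pow_mem)
open Pool.Agent.Helper38.TQ (PEq)

/-- The algebra generated by the small monomials. -/
theorem finite_of_rel0 {K : Type} [Field K] {N : ℕ} (J : Ideal (MvPolynomial (Fin N) K)) (r : ℕ)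
    (hr : 0 < r) (h : ∀ i : Fin N, ∃ v : MvPolynomial (Fin N) K, v.totalDegree < r ∧
      X i ^ r - v ∈ J) : Module.Finite K (MvPolynomial (Fin N) K ⧸ J) := by
  classical
  let T : Set (Fin N →₀ ℕ) := Set.Iic (Finsupp.equivFunOnFinite.symm fun _ => r)
  have hT : T.Finite := Set.finite_Iic _
  let W : Submodule K (MvPolynomial (Fin N) K ⧸ J) :=
    Submodule.span K ((fun s => Ideal.Quotient.mk J (monomial s 1)) '' T)
  have hsmul : ∀ (a : K) (w : MvPolynomial (Fin N) K), Ideal.Quotient.mk J w ∈ W →
      Ideal.Quotient.mk J (C a * w) ∈ W := by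
    intro a w hw
    have h1 : Ideal.Quotient.mk J (C a * w) = a • Ideal.Quotient.mk J w := by
      rw [← smul_eq_C_mul]
      rfl
    rw [h1]
    exact W.smul_mem _ hw
  have hmain : ∀ n : ℕ, ∀ p : MvPolynomial (Fin N) K, p.totalDegree ≤ n →
      Ideal.Quotient.mk J p ∈ W := by
    intro n
    induction n using Nat.strong_induction_on with
    | _ n ih =>
      intro p hp
      have h1 : p = ∑ s ∈ p.support, C (p.coeff s) * monomial s 1 := by
        conv_lhs => rw [p.as_sum]
        apply Finset.sum_congr rfl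
        intro s _
        rw [C_mul_monomial, mul_one]
      rw [h1, map_sum]
      apply W.sum_mem
      intro s hs
      apply hsmul
      have hsd : (s.sum fun _ e => e) ≤ n := le_trans (le_totalDegree hs) hp
      by_cases hsT : s ∈ T
      · exact Submodule.subset_span ⟨s, hsT, rfl⟩
      · have h2 : ∃ i, r < s i := by
          by_contra hcon
          push Not at hcon
          exact hsT (fun i => hcon i)
        obtain ⟨i, hi⟩ := h2
        obtain ⟨v, hv, huv⟩ := h i
        let s' : Fin N →₀ ℕ := s - Finsupp.single i r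
        have hs' : s = s' + Finsupp.single i r := by
          refine (tsub_add_cancel_of_le ?_).symm
          rw [Finsupp.single_le_iff]
          exact hi.le
        have hdeg : (s.sum fun _ e => e) = (s'.sum fun _ e => e) + r := by
          conv_lhs => rw [hs']
          rw [Finsupp.sum_add_index' (fun _ => rfl) (fun _ _ _ => rfl),
            Finsupp.sum_single_index rfl]
        have hm : (monomial s (1 : K)) = monomial s' 1 * X i ^ r := by
          conv_lhs => rw [hs']
          rw [X_pow_eq_monomial, monomial_mul, one_mul]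
        have hm2 : Ideal.Quotient.mk J (monomial s (1 : K)) =
            Ideal.Quotient.mk J (monomial s' 1 * v) := by
          rw [hm, Ideal.Quotient.eq]
          have : monomial s' 1 * X i ^ r - monomial s' 1 * v =
              monomial s' 1 * (X i ^ r - v) := by ring
          rw [this]
          exact J.mul_mem_left _ huv
        rw [hm2]
        have hs'd : (monomial s' (1 : K)).totalDegree ≤ (s'.sum fun _ e => e) := by
          exact totalDegree_monomial_le _ _
        apply ih (n - 1) (by omega)
        refine le_trans (totalDegree_mul _ _) ?_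
        omega
  have htop : W = ⊤ := by
    rw [eq_top_iff]
    intro x _
    obtain ⟨p, rfl⟩ := Ideal.Quotient.mk_surjective x
    exact hmain _ p le_rfl
  refine ⟨?_⟩
  rw [← htop]
  exact Submodule.fg_span (hT.image _)

/-- The zero set of such an ideal is finite. -/
theorem finite_zeros {K : Type} [Field K] {N : ℕ} (J : Ideal (MvPolynomial (Fin N) K))
    [Module.Finite K (MvPolynomial (Fin N) K ⧸ J)] :
    {y : Fin N → K | ∀ g ∈ J, eval y g = 0}.Finite := by
  classical
  haveI : IsArtinianRing (MvPolynomial (Fin N) K ⧸ J) := IsArtinianRing.of_finite K _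
  let ev : {y : Fin N → K | ∀ g ∈ J, eval y g = 0} → ((MvPolynomial (Fin N) K ⧸ J) →+* K) :=
    fun y => Ideal.Quotient.lift J (eval (y : Fin N → K)) fun g hg => y.2 g hg
  have hsurj : ∀ y, Function.Surjective (ev y) := by
    intro y c
    refine ⟨Ideal.Quotient.mk J (C c), ?_⟩
    simp [ev]
  let φ : {y : Fin N → K | ∀ g ∈ J, eval y g = 0} →
      MaximalSpectrum (MvPolynomial (Fin N) K ⧸ J) := fun y =>
    ⟨RingHom.ker (ev y), RingHom.ker_isMaximal_of_surjective _ (hsurj y)⟩
  have hinj : Function.Injective φ := by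
    intro y y' h
    have h1 : RingHom.ker (ev y) = RingHom.ker (ev y') := congrArg MaximalSpectrum.asIdeal h
    apply Subtype.ext
    funext i
    have h2 : Ideal.Quotient.mk J (X i - C ((y : Fin N → K) i)) ∈ RingHom.ker (ev y) := by
      rw [RingHom.mem_ker]
      simp [ev]
    rw [h1, RingHom.mem_ker] at h2
    have h3 : (y' : Fin N → K) i - (y : Fin N → K) i = 0 := by
      simpa [ev] using h2
    exact (sub_eq_zero.1 h3).symm
  haveI : Finite {y : Fin N → K | ∀ g ∈ J, eval y g = 0} := Finite.of_injective φ hinj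
  exact Set.toFinite _

attribute [local instance] MvPolynomial.gradedAlgebra

/-- An infinite closed set meets every hypersurface of positive degree. -/
theorem exists_zero_of_infinite {ν : ℕ} {T : Set (MvPolynomial (Fin (ν + 1)) ℂ)}
    (hT : ∀ g ∈ T, ∃ e : ℕ, g.IsHomogeneous e) {G : MvPolynomial (Fin (ν + 1)) ℂ} {e : ℕ}
    (he : 1 ≤ e) (hG : G.IsHomogeneous e) (p : ℕ → Fin (ν + 1) → ℂ) (hp : ∀ n, p n ≠ 0)
    (hne : ∀ n m, n ≠ m → ¬ PEq (p n) (p m)) (hpT : ∀ n, ∀ g ∈ T, eval (p n) g = 0) :
    ∃ y : Fin (ν + 1) → ℂ, y ≠ 0 ∧ (∀ g ∈ T, eval y g = 0) ∧ eval y G = 0 := by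
  classical
  by_contra hcon
  push Not at hcon
  have hno : ∀ z : Fin (ν + 1) → ℂ, (∀ g ∈ T, eval z g = 0) → eval z G = 0 → z = 0 := by
    intro z hz hzG
    by_contra h0
    exact hcon z h0 hz hzG
  have hev : ∀ (z : Fin (ν + 1) → ℂ) (P : MvPolynomial (Fin (ν + 1)) ℂ),
      aeval z P = eval z P := fun z P => by
    rw [aeval_def, Algebra.algebraMap_self, eval₂_id]
  obtain ⟨r, hr, hX⟩ := exists_pow_mem (K := ℂ) (Ideal.span (insert G T)) (by
    intro x hx
    refine hno x (fun g hg => ?_) ?_
    · rw [← hev]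
      exact hx g (Ideal.subset_span (Set.mem_insert_of_mem _ hg))
    · rw [← hev]
      exact hx _ (Ideal.subset_span (Set.mem_insert _ _)))
  have hhom : ∀ g ∈ Ideal.span T, ∀ n, homogeneousComponent n g ∈ Ideal.span T := by
    intro g hg n
    have h2 : (Ideal.span T).IsHomogeneous (homogeneousSubmodule (Fin (ν + 1)) ℂ) := by
      refine Ideal.homogeneous_span _ _ fun x hx => ?_
      obtain ⟨e, he⟩ := hT x hx
      exact ⟨e, he⟩
    exact homogeneousComponent_mem_of_mem h2 hg n
  -- the equations
  have h1 : ∀ i : Fin (ν + 1), ∃ v : MvPolynomial (Fin (ν + 1)) ℂ, v.totalDegree < r ∧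
      X i ^ r - v * G ∈ Ideal.span T := by
    intro i
    obtain ⟨a, g, hg, hga⟩ := Ideal.mem_span_insert.1 (hX i)
    have h3 := congrArg (homogeneousComponent r) hga
    have h4 : homogeneousComponent r (X i ^ r : MvPolynomial (Fin (ν + 1)) ℂ) = X i ^ r := by
      rw [homogeneousComponent_of_mem ((mem_homogeneousSubmodule _ _).2 (isHomogeneous_X_pow i r)),
        if_pos rfl]
    rw [h4, map_add] at h3
    rcases Nat.lt_or_ge r e with h5 | h5
    · refine ⟨0, ?_, ?_⟩
      · rw [totalDegree_zero]
        exact hr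
      · have h6 : homogeneousComponent r (a * G) = 0 := by
          conv_lhs => rw [← sum_homogeneousComponent (φ := a), Finset.sum_mul, map_sum]
          refine Finset.sum_eq_zero fun i _ => ?_
          have h2 : (homogeneousComponent i a * G).IsHomogeneous (i + e) :=
            (homogeneousComponent_isHomogeneous i a).mul hG
          rw [homogeneousComponent_of_mem (h2 : _ ∈ homogeneousSubmodule (Fin (ν + 1)) ℂ _),
            if_neg (by omega)]
        rw [h3, h6, zero_add, zero_mul, sub_zero]
        exact hhom g hg r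
    · obtain ⟨r', rfl⟩ : ∃ r', r = r' + e := ⟨r - e, by omega⟩
      refine ⟨homogeneousComponent r' a, ?_, ?_⟩
      · refine lt_of_le_of_lt (homogeneousComponent_isHomogeneous _ _).totalDegree_le ?_
        omega
      · rw [h3, homogeneousComponent_mul_of_homogeneous hG a r', add_sub_cancel_left]
        exact hhom g hg _
  choose v hv hvT using h1
  -- the normalised points
  have hGp : ∀ n, eval (p n) G ≠ 0 := fun n h => hp n (hno _ (hpT n) h)
  have hc : ∀ n, ∃ c : ℂ, c ^ e = (eval (p n) G)⁻¹ := fun n =>
    IsAlgClosed.exists_pow_nat_eq _ (by omega)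
  choose c hc using hc
  have hc0 : ∀ n, c n ≠ 0 := by
    intro n h
    have h2 := hc n
    rw [h, zero_pow (by omega)] at h2
    exact inv_ne_zero (hGp n) h2.symm
  have hsmul : ∀ (g : MvPolynomial (Fin (ν + 1)) ℂ) (m : ℕ), g.IsHomogeneous m →
      ∀ (t : ℂ) (y : Fin (ν + 1) → ℂ), eval (t • y) g = t ^ m * eval y g := by
    intro g m hg t y
    exact Pool.Agent.Helper38.Dml.eval_smul_of_homog hg t y
  set q : ℕ → Fin (ν + 1) → ℂ := fun n => c n • p n with hq
  have hqT : ∀ n, ∀ g ∈ T, eval (q n) g = 0 := by
    intro n g hg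
    obtain ⟨m, hm⟩ := hT g hg
    rw [hq]
    change eval (c n • p n) g = 0
    rw [hsmul g m hm, hpT n g hg, mul_zero]
  have hqG : ∀ n, eval (q n) G = 1 := by
    intro n
    change eval (c n • p n) G = 1
    rw [hsmul G e hG, hc, inv_mul_cancel₀ (hGp n)]
  set J : Ideal (MvPolynomial (Fin (ν + 1)) ℂ) :=
    Ideal.span (Set.range fun i => X i ^ r - v i) with hJ
  haveI := finite_of_rel0 J r hr fun i => ⟨v i, hv i, Ideal.subset_span ⟨i, rfl⟩⟩
  have hfin := finite_zeros J
  have hqJ : ∀ n, q n ∈ {y : Fin (ν + 1) → ℂ | ∀ g ∈ J, eval y g = 0} := by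
    intro n
    have h2 : J ≤ RingHom.ker (eval (q n)) := by
      rw [hJ, Ideal.span_le]
      rintro _ ⟨i, rfl⟩
      have h3 : Ideal.span T ≤ RingHom.ker (eval (q n)) := by
        rw [Ideal.span_le]
        intro g hg
        exact hqT n g hg
      have h4 := h3 (hvT i)
      rw [RingHom.mem_ker, map_sub, map_mul, hqG, mul_one] at h4
      change eval (q n) (X i ^ r - v i) = 0
      rw [map_sub]
      exact h4
    exact fun g hg => h2 hg
  have hinj : Function.Injective q := by
    intro n m h
    by_contra hnm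
    refine hne n m hnm ⟨(c m)⁻¹ * c n, mul_ne_zero (inv_ne_zero (hc0 m)) (hc0 n), ?_⟩
    have h2 : c n • p n = c m • p m := h
    rw [mul_smul, h2, smul_smul, inv_mul_cancel₀ (hc0 m), one_smul]
  exact (Set.infinite_range_of_injective hinj) (hfin.subset (by
    rintro _ ⟨n, rfl⟩
    exact hqJ n))

end Pool.Agent.Helper30.THC
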