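import Pool.Agent.Helper30.THC.Induct
import Pool.Agent.Helper72.TH.MainA

/-!
# Tame invariant sets over the complex numbers: the first part
-/

set_option autoImplicit false

namespace Pool.Agent.Helper30.THC

open MvPolynomial
open Pool.Agent.Helper16 (Place IsFunctionField)
open Pool.Agent.Helper36 (step iter iter_zero iter_succ iter_succ' iter_add iter_map APSet
  APSet_univ)
open Pool.Agent.Helper38.TQ
open Pool.Agent.Helper30.TKN
open Pool.Agent.Helper30.RED
open Pool.Agent.Helper72.TH (Chain)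

variable {ν : ℕ}

/-- The data of the first part: `R = w n` and `W j = w j`, `j < n`. -/
structure Cl1 (r n : ℕ) (δ : Fin n → ℕ) (S : ℕ → Finset (Fin n)) (t : ℕ)
    (f : Fin (ν + 1) → MvPolynomial (Fin (ν + 1)) ℂ)
    (w : Fin (n + 1) → MvPolynomial (Fin (ν + 1)) ℂ) : Prop where
  hom : (w (Fin.last n)).IsHomogeneous r
  chain : Chain ℂ f (jf f * w (Fin.last n)) (fun j => w j.castSucc) δ S t
  start : ∀ x : Fin (ν + 1) → ℂ, aeval x (w (Fin.last n)) = 0 →
    ∀ j ∈ S 0, aeval (fun l => aeval x (f l)) (w j.castSucc) = 0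

/-- The class is closed under specialisation. -/
theorem cl1_spec {d r n : ℕ} {δ : Fin n → ℕ} {S : ℕ → Finset (Fin n)} {t : ℕ}
    {k : Type} [Field k] [IsAlgClosed k] [Algebra k ℂ] (K : IntermediateField k ℂ)
    (hK : IsFunctionField k K) {F : Fin (ν + 1) → MvPolynomial (Fin (ν + 1)) K}
    {W : Fin (n + 1) → MvPolynomial (Fin (ν + 1)) K}
    (hC : Cl1 r n δ S t (fun i => map (algebraMap K ℂ) (F i))
      (fun j => map (algebraMap K ℂ) (W j))) :
    ∃ A : Set (Place k K), A.Finite ∧ ∀ b ∉ A,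
      ∀ (f : Fin (ν + 1) → MvPolynomial (Fin (ν + 1)) k)
        (w : Fin (n + 1) → MvPolynomial (Fin (ν + 1)) k), GoodRed d b F f →
        (∀ j, RedP b (W j) (w j)) →
        Cl1 r n δ S t (fun i => map (algebraMap k ℂ) (f i))
          (fun j => map (algebraMap k ℂ) (w j)) := by
  classical
  have hchain : Chain ℂ F (jf F * W (Fin.last n)) (fun j => W j.castSucc) δ S t := by
    refine chain_map.1 ?_
    rw [map_mul, ← map_jf']
    exact hC.chain
  obtain ⟨A₁, hA₁, h₁⟩ := chain_spec hK hchain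
  obtain ⟨A₂, hA₂, h₂⟩ := all_places (k := k) (K := K) (ι := {j // j ∈ S 0})
    (P := fun j b => ∀ (h : Unit → MvPolynomial (Fin (ν + 1)) k)
      (γ : MvPolynomial (Fin (ν + 1)) k), (∀ u : Unit, RedP b (W (Fin.last n)) (h u)) →
      RedP b (aeval F (W j.1.castSucc)) γ →
      ∀ z : Fin (ν + 1) → ℂ, (∀ u, aeval z (h u) = 0) → aeval z γ = 0) (by
    rintro ⟨j, hj⟩
    obtain ⟨A, hA, h⟩ := incl_spec hK (κ := Unit) (fun _ => W (Fin.last n))
      (aeval F (W j.castSucc)) (fun z hz => by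
        rw [aeval_comp]
        have h1 := hC.start z (by rw [aevalC, ← aeval_eq_eval_map]; exact hz ()) j hj
        simp only [aevalC, ← aeval_eq_eval_map] at h1
        exact h1)
    exact ⟨A, hA, h⟩)
  refine ⟨A₁ ∪ A₂, hA₁.union hA₂, fun b hb f w hf hw => ?_⟩
  rw [Set.mem_union, not_or] at hb
  refine ⟨(redP_hom (hw _) (hom_of_map (algebraMap K ℂ) hC.hom)).map _, ?_, ?_⟩
  · have h3 := h₁ b hb.1 f (jf f * w (Fin.last n)) (fun j => w j.castSucc) hf.red
      ((redP_jf hf.red).mul (hw _)) fun j => hw _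
    have h4 := chain_map.2 h3
    rw [map_mul, ← map_jf'] at h4
    exact h4
  · intro z hz j hj
    have h3 := h₂ b hb.2 ⟨j, hj⟩ (fun _ => w (Fin.last n)) _ (fun _ => hw _)
      (redP_aeval (hw _) hf.red) z fun _ => by
        rw [aeval_eq_eval_map, ← aevalC]
        exact hz
    rw [aeval_comp] at h3
    simp only [aevalC, ← aeval_eq_eval_map]
    exact h3

/-- Algebraic data. -/
theorem cl1_alg {d r n : ℕ} (hr : 1 ≤ r) {δ : Fin n → ℕ} {S : ℕ → Finset (Fin n)} {t : ℕ}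
    {f : Fin (ν + 1) → MvPolynomial (Fin (ν + 1)) ℂ}
    {w : Fin (n + 1) → MvPolynomial (Fin (ν + 1)) ℂ} {a : Fin (ν + 1) → ℂ}
    (hfa : ∀ i m, IsAlgebraic ℚ ((f i).coeff m)) (hwa : ∀ j m, IsAlgebraic ℚ ((w j).coeff m))
    (haa : ∀ i, IsAlgebraic ℚ (a i)) (hf : IsEndo d f) (hC : Cl1 r n δ S t f w) (ha : a ≠ 0)
    {T : Set (MvPolynomial (Fin (ν + 1)) ℂ)} (hT : ∀ g ∈ T, ∃ e, g.IsHomogeneous e) :
    ∃ A, {n | ∀ g ∈ T, eval (iter f a n) g = 0} = APSet A := by
  classical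
  obtain ⟨K, hnum, F, W, x, rfl, rfl, rfl⟩ := exists_numberField hfa hwa haa
  have hx : x ≠ 0 := by
    intro h
    apply ha
    funext i
    exact (congrArg (algebraMap K ℂ) (congrFun h i)).trans (map_zero _)
  have hchain : Chain ℂ F (jf F * W (Fin.last n)) (fun j => W j.castSucc) δ S t := by
    refine chain_map.1 ?_
    rw [map_mul, ← map_jf']
    exact hC.chain
  have hstart : ∀ z : Fin (ν + 1) → ℂ, aeval z (W (Fin.last n)) = 0 →
      ∀ j ∈ S 0, aeval (fun l => aeval z (F l)) (W j.castSucc) = 0 := by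
    intro z hz j hj
    have h1 := hC.start z (by rw [aevalC, ← aeval_eq_eval_map]; exact hz) j hj
    simp only [aevalC, ← aeval_eq_eval_map] at h1
    exact h1
  have hRh : (W (Fin.last n)).IsHomogeneous r := hom_of_map (algebraMap K ℂ) hC.hom
  obtain ⟨A, hA⟩ := Pool.Agent.Helper72.TH.dml_of_nonpre hf (x := x) 1 one_ne_zero hT
    (fun hpre _ => Pool.Agent.Helper72.TH.mainA hf hr hRh hchain hstart hx hpre)
  refine ⟨A, ?_⟩
  have h1 : {n : ℕ | ∃ q ∈ A, ∃ k : ℕ, n = q.1 * k + q.2} = APSet A := rfl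
  rw [← h1, ← hA]
  simp only [one_mul]
  rfl

end Pool.Agent.Helper30.THC
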