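import Pool.Agent.Helper30.THC.Unb
import Pool.Agent.Helper33.GC.Sets

/-!
# Tame invariant hypersurfaces over the complex numbers: all closed sets, all dimensions
-/

set_option autoImplicit false

namespace Pool.Agent.Helper30.THC

open MvPolynomial
open Pool.Agent.Helper16 (Place IsFunctionField)
open Pool.Agent.Helper36 (step iter iter_zero iter_succ iter_succ' iter_add iter_map APSet
  APSet_univ)
open Pool.Agent.Helper38.TQ
open Pool.Agent.Helper30.TKN
open Pool.Agent.Helper30.RED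
open Pool.Agent.Helper33.GC (APSet_inter)
open Pool.Agent.Helper72.TH (Chain)

variable {ν : ℕ}

/-- Induction on the transcendence degree for a class of maps and all the closed sets. -/
theorem allN_induct_cl {d N : ℕ}
    (Cl : (Fin (ν + 1) → MvPolynomial (Fin (ν + 1)) ℂ) →
      (Fin N → MvPolynomial (Fin (ν + 1)) ℂ) → Prop)
    (hspec : ∀ (k : Type) [Field k] [IsAlgClosed k] [Algebra k ℂ] (K : IntermediateField k ℂ),
      IsFunctionField k K → ∀ (F : Fin (ν + 1) → MvPolynomial (Fin (ν + 1)) K)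
      (W : Fin N → MvPolynomial (Fin (ν + 1)) K),
      (IsEndo d fun i => map (algebraMap K ℂ) (F i)) →
      Cl (fun i => map (algebraMap K ℂ) (F i)) (fun j => map (algebraMap K ℂ) (W j)) →
      ∃ A : Set (Place k K), A.Finite ∧ ∀ b ∉ A,
        ∀ (f : Fin (ν + 1) → MvPolynomial (Fin (ν + 1)) k)
        (w : Fin N → MvPolynomial (Fin (ν + 1)) k), GoodRed d b F f →
          (∀ j, RedP b (W j) (w j)) →
          Cl (fun i => map (algebraMap k ℂ) (f i)) (fun j => map (algebraMap k ℂ) (w j)))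
    (R : Set ℕ → Prop) (hRu : R Set.univ) (hRi : ∀ S T, R S → R T → R (S ∩ T))
    (hunb : ∀ (k : Type) [Field k] [IsAlgClosed k] [Algebra k ℂ] (K : IntermediateField k ℂ),
      IsFunctionField k K → ∀ (F : Fin (ν + 1) → MvPolynomial (Fin (ν + 1)) K)
      (W : Fin N → MvPolynomial (Fin (ν + 1)) K) (x : Fin (ν + 1) → K),
      (IsEndo d fun i => map (algebraMap K ℂ) (F i)) →
      Cl (fun i => map (algebraMap K ℂ) (F i)) (fun j => map (algebraMap K ℂ) (W j)) →
      x ≠ 0 → (∀ B : ℤ, ∃ n, B < ht k (iter F x n)) →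
      ∀ T : Set (MvPolynomial (Fin (ν + 1)) ℂ), (∀ g ∈ T, ∃ e, g.IsHomogeneous e) →
      R {n | ∀ g ∈ T, eval (iter (fun i => map (algebraMap K ℂ) (F i))
        (fun i => algebraMap K ℂ (x i)) n) g = 0})
    (halg : ∀ (f : Fin (ν + 1) → MvPolynomial (Fin (ν + 1)) ℂ)
      (w : Fin N → MvPolynomial (Fin (ν + 1)) ℂ) (a : Fin (ν + 1) → ℂ),
      (∀ i m, IsAlgebraic ℚ ((f i).coeff m)) → (∀ j m, IsAlgebraic ℚ ((w j).coeff m)) →
      (∀ i, IsAlgebraic ℚ (a i)) → IsEndo d f → Cl f w → a ≠ 0 →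
      ∀ T : Set (MvPolynomial (Fin (ν + 1)) ℂ), (∀ g ∈ T, ∃ e, g.IsHomogeneous e) →
      R {n | ∀ g ∈ T, eval (iter f a n) g = 0})
    {f : Fin (ν + 1) → MvPolynomial (Fin (ν + 1)) ℂ} (hf : IsEndo d f)
    {w₀ : Fin N → MvPolynomial (Fin (ν + 1)) ℂ} (hcl : Cl f w₀) {a : Fin (ν + 1) → ℂ}
    (ha : a ≠ 0) {S : Set (MvPolynomial (Fin (ν + 1)) ℂ)}
    (hS : ∀ g ∈ S, ∃ e, g.IsHomogeneous e) :
    R {n | ∀ g ∈ S, eval (iter f a n) g = 0} := by
  classical
  obtain ⟨S₀, hS₀, hS₀v⟩ := exists_finite_subfamily S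
  set r : ℕ := S₀.card with hr
  let p : Fin r → MvPolynomial (Fin (ν + 1)) ℂ := fun j => (S₀.equivFin.symm j : _)
  have hpS : ∀ j, p j ∈ S₀ := fun j => (S₀.equivFin.symm j).2
  have hpsurj : ∀ s ∈ S₀, ∃ j, p j = s := by
    intro s hs
    refine ⟨S₀.equivFin ⟨s, hs⟩, ?_⟩
    change ((S₀.equivFin.symm (S₀.equivFin ⟨s, hs⟩) : S₀) : MvPolynomial (Fin (ν + 1)) ℂ) = s
    rw [Equiv.symm_apply_apply]
  choose e' he' using fun j => hS (p j) (hS₀ (hpS j))
  let w' : Fin (r + N) → MvPolynomial (Fin (ν + 1)) ℂ := Fin.append p w₀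
  have hw3 : ∀ j, w' (Fin.castAdd N j) = p j := fun j => Fin.append_left _ _ j
  have hw4 : ∀ j, w' (Fin.natAdd r j) = w₀ j := fun j => Fin.append_right _ _ j
  have hset : {n | ∀ g ∈ S, eval (iter f a n) g = 0} =
      {n | ∀ j : Fin r, eval (iter f a n) (w' (Fin.castAdd N j)) = 0} := by
    ext n
    constructor
    · intro hn j
      rw [hw3]
      exact hn _ (hS₀ (hpS j))
    · intro hn
      refine hS₀v _ fun s hs => ?_
      obtain ⟨j, rfl⟩ := hpsurj s hs
      rw [← hw3]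
      exact hn j
  rw [hset]
  refine inductN (d := d) (Fin.castAdd N) e' (fun f w _ => Cl f (fun j => w (Fin.natAdd r j)))
    R hRu hRi ?_ ?_ ?_ f w' a hf ?_ ha ?_
  · intro k _ _ _ K hK F W x hF hC hx B hB
    obtain ⟨A', hA', h'⟩ := hspec k K hK F (fun j => W (Fin.natAdd r j)) hF hC
    exact ⟨A', hA', fun b hb f w z hf hw _ =>
      h' b hb f (fun j => w (Fin.natAdd r j)) hf fun j => hw _⟩
  · intro k _ _ _ K hK F W x hF hC hx hub hWh
    have h1 := hunb k K hK F (fun j => W (Fin.natAdd r j)) x hF hC hx hub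
      (Set.range fun j => map (algebraMap K ℂ) (W (Fin.castAdd N j))) (by
        rintro g ⟨j, rfl⟩
        exact ⟨_, (hWh j).map _⟩)
    have h2 : {n | ∀ j : Fin r, eval (iter F x n) (W (Fin.castAdd N j)) = 0} =
        {n | ∀ g ∈ Set.range fun j => map (algebraMap K ℂ) (W (Fin.castAdd N j)),
          eval (iter (fun i => map (algebraMap K ℂ) (F i)) (fun i => algebraMap K ℂ (x i)) n) g
            = 0} := by
      ext n
      simp only [Set.mem_ofPred_eq, Set.forall_mem_range, eval_iter_map]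
    rw [h2]
    exact h1
  · intro f w a hfa hwa haa hf hC ha hwh
    have hSw : {n | ∀ j : Fin r, eval (iter f a n) (w (Fin.castAdd N j)) = 0} =
        {n | ∀ g ∈ Set.range fun j : Fin r => w (Fin.castAdd N j),
          eval (iter f a n) g = 0} := by
      ext n
      simp
    rw [hSw]
    refine halg f (fun j => w (Fin.natAdd r j)) a hfa (fun j => hwa _) haa hf hC ha _ ?_
    rintro g ⟨j, rfl⟩
    exact ⟨_, hwh j⟩
  · simp only [hw4]
    exact hcl
  · intro j
    rw [hw3]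
    exact he' j

/-- **Tame invariant hypersurfaces**: every endomorphism of `P^N` over `ℂ` with the data of the
first part has the dynamical Mordell-Lang property, for all points and all closed sets. -/
theorem part1_all {d r n : ℕ} (hr : 1 ≤ r) {δ : Fin n → ℕ} {S : ℕ → Finset (Fin n)} {t : ℕ}
    {f : Fin (ν + 1) → MvPolynomial (Fin (ν + 1)) ℂ}
    {w : Fin (n + 1) → MvPolynomial (Fin (ν + 1)) ℂ}
    {a : Fin (ν + 1) → ℂ} (hf : IsEndo d f) (hC : Cl1 r n δ S t f w) (ha : a ≠ 0)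
    {T : Set (MvPolynomial (Fin (ν + 1)) ℂ)} (hT : ∀ g ∈ T, ∃ e, g.IsHomogeneous e) :
    ∃ A, {n | ∀ g ∈ T, eval (iter f a n) g = 0} = APSet A := by
  refine allN_induct_cl (d := d) (N := n + 1) (fun f w => Cl1 r n δ S t f w) ?_
    (fun U => ∃ A, U = APSet A) APSet_univ ?_ ?_ ?_ hf hC ha hT
  · intro k _ _ _ K hK F W _ hC
    exact cl1_spec K hK hC
  · rintro _ _ ⟨A, rfl⟩ ⟨B, rfl⟩
    exact APSet_inter A B
  · intro k _ _ _ K hK F W x hF hC hx hub T hT
    obtain ⟨A, hA⟩ := cl1_unb K hK hr hF hC hx hub 1 one_ne_zero T hT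
    refine ⟨A, ?_⟩
    have h1 : {n : ℕ | ∃ q ∈ A, ∃ k : ℕ, n = q.1 * k + q.2} = APSet A := rfl
    rw [← h1, ← hA]
    simp only [one_mul]
    rfl
  · intro f w a hfa hwa haa hf hC ha T hT
    exact cl1_alg hr hfa hwa haa hf hC ha hT

end Pool.Agent.Helper30.THC
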