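import Pool.Agent.Helper30.THC.Sets
import Pool.Agent.Helper30.THC.Meet
import Pool.Agent.Helper30.RED.Plane
import Pool.Agent.Helper30.RED.CurveN
import Pool.Agent.Helper72.TH.Final

/-!
# Tame invariant sets which contain a hypersurface: closed sets of dimension at most one over the
complex numbers
-/

set_option autoImplicit false

namespace Pool.Agent.Helper30.THC

open MvPolynomial
open Pool.Agent.Helper16 (Place IsFunctionField)
open Pool.Agent.Helper36 (step iter iter_zero iter_succ iter_succ' iter_add iter_map APSet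
  APSet_univ)
open Pool.Agent.Helper38.TQ
open Pool.Agent.Helper30.TKN
open Pool.Agent.Helper30.RED
open Pool.Agent.Helper33.GC (APSet_inter)
open Pool.Agent.Helper72.TH (Chain ChainS TamePt Meets)

variable {ν : ℕ}

/-- The composition with an iterate. -/
theorem aeval_iterate {K L : Type} [Field K] [Field L] [Algebra K L]
    (F : Fin (ν + 1) → MvPolynomial (Fin (ν + 1)) K) (g : MvPolynomial (Fin (ν + 1)) K) (s : ℕ)
    (z : Fin (ν + 1) → L) :
    aeval z ((fun p => aeval F p)^[s] g) = aeval (iter F z s) g := by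
  induction s generalizing z with
  | zero => rfl
  | succ s ih =>
    rw [Function.iterate_succ_apply', aeval_comp, ih, iter_succ']
    rfl

theorem redP_iterate {k K : Type} [Field k] [Field K] [Algebra k K] {b : Place k K}
    {P : MvPolynomial (Fin (ν + 1)) K} {p : MvPolynomial (Fin (ν + 1)) k} (hP : RedP b P p)
    {F : Fin (ν + 1) → MvPolynomial (Fin (ν + 1)) K}
    {f : Fin (ν + 1) → MvPolynomial (Fin (ν + 1)) k} (hF : ∀ i, RedP b (F i) (f i)) (s : ℕ) :
    RedP b ((fun p => aeval F p)^[s] P) ((fun p => aeval f p)^[s] p) := by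
  induction s with
  | zero => exact hP
  | succ s ih =>
    rw [Function.iterate_succ_apply', Function.iterate_succ_apply']
    exact redP_aeval ih hF

theorem iter_mapC {K : Type} [Field K] [Algebra K ℂ]
    (F : Fin (ν + 1) → MvPolynomial (Fin (ν + 1)) K) (z : Fin (ν + 1) → ℂ) (s : ℕ) :
    iter (fun i => map (algebraMap K ℂ) (F i)) z s = iter F z s := by
  induction s with
  | zero => rfl
  | succ s ih =>
    rw [iter_succ, iter_succ, ih]
    funext i
    exact aeval_map_algebraMap ℂ _ _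

/-- The data of the second part: `G = w n` and `W j = w j`, `j < n`. -/
structure Cl2 (r n s : ℕ) (δ : Fin n → ℕ) (S : ℕ → Finset (Fin n)) (t : ℕ)
    (f : Fin (ν + 1) → MvPolynomial (Fin (ν + 1)) ℂ)
    (w : Fin (n + 1) → MvPolynomial (Fin (ν + 1)) ℂ) : Prop where
  hom : (w (Fin.last n)).IsHomogeneous r
  chain : Chain ℂ f (jf f) (fun j => w j.castSucc) δ S t
  incl : ∀ x : Fin (ν + 1) → ℂ, aeval x (w (Fin.last n)) = 0 →
    ∀ j ∈ S 0, aeval (iter f x s) (w j.castSucc) = 0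

/-- The class is closed under specialisation. -/
theorem cl2_spec {d r n s : ℕ} {δ : Fin n → ℕ} {S : ℕ → Finset (Fin n)} {t : ℕ}
    {k : Type} [Field k] [IsAlgClosed k] [Algebra k ℂ] (K : IntermediateField k ℂ)
    (hK : IsFunctionField k K) {F : Fin (ν + 1) → MvPolynomial (Fin (ν + 1)) K}
    {W : Fin (n + 1) → MvPolynomial (Fin (ν + 1)) K}
    (hC : Cl2 r n s δ S t (fun i => map (algebraMap K ℂ) (F i))
      (fun j => map (algebraMap K ℂ) (W j))) :
    ∃ A : Set (Place k K), A.Finite ∧ ∀ b ∉ A,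
      ∀ (f : Fin (ν + 1) → MvPolynomial (Fin (ν + 1)) k)
        (w : Fin (n + 1) → MvPolynomial (Fin (ν + 1)) k), GoodRed d b F f →
        (∀ j, RedP b (W j) (w j)) →
        Cl2 r n s δ S t (fun i => map (algebraMap k ℂ) (f i))
          (fun j => map (algebraMap k ℂ) (w j)) := by
  classical
  have hchain : Chain ℂ F (jf F) (fun j => W j.castSucc) δ S t := by
    refine chain_map.1 ?_
    rw [← map_jf']
    exact hC.chain
  obtain ⟨A₁, hA₁, h₁⟩ := chain_spec hK hchain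
  obtain ⟨A₂, hA₂, h₂⟩ := all_places (k := k) (K := K) (ι := {j // j ∈ S 0})
    (P := fun j b => ∀ (h : Unit → MvPolynomial (Fin (ν + 1)) k)
      (γ : MvPolynomial (Fin (ν + 1)) k), (∀ u : Unit, RedP b (W (Fin.last n)) (h u)) →
      RedP b ((fun p => aeval F p)^[s] (W j.1.castSucc)) γ →
      ∀ z : Fin (ν + 1) → ℂ, (∀ u, aeval z (h u) = 0) → aeval z γ = 0) (by
    rintro ⟨j, hj⟩
    obtain ⟨A, hA, h⟩ := incl_spec hK (κ := Unit) (fun _ => W (Fin.last n))
      ((fun p => aeval F p)^[s] (W j.castSucc)) (fun z hz => by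
        rw [aeval_iterate]
        have h1 := hC.incl z (by rw [aevalC, ← aeval_eq_eval_map]; exact hz ()) j hj
        rw [iter_mapC, aevalC, ← aeval_eq_eval_map] at h1
        exact h1)
    exact ⟨A, hA, h⟩)
  refine ⟨A₁ ∪ A₂, hA₁.union hA₂, fun b hb f w hf hw => ?_⟩
  rw [Set.mem_union, not_or] at hb
  refine ⟨(redP_hom (hw _) (hom_of_map (algebraMap K ℂ) hC.hom)).map _, ?_, ?_⟩
  · have h3 := h₁ b hb.1 f (jf f) (fun j => w j.castSucc) hf.red
      (redP_jf hf.red) fun j => hw _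
    have h4 := chain_map.2 h3
    rw [← map_jf'] at h4
    exact h4
  · intro z hz j hj
    have h3 := h₂ b hb.2 ⟨j, hj⟩ (fun _ => w (Fin.last n)) _ (fun _ => hw _)
      (redP_iterate (hw _) hf.red s) z fun _ => by
        rw [aeval_eq_eval_map, ← aevalC]
        exact hz
    rw [aeval_iterate] at h3
    rw [iter_mapC, aevalC, ← aeval_eq_eval_map]
    exact h3

/-- Algebraic data. -/
theorem cl2_alg {d r n s : ℕ} (hr : 1 ≤ r) {δ : Fin n → ℕ} {S : ℕ → Finset (Fin n)} {t : ℕ}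
    {f : Fin (ν + 1) → MvPolynomial (Fin (ν + 1)) ℂ}
    {w : Fin (n + 1) → MvPolynomial (Fin (ν + 1)) ℂ} {a : Fin (ν + 1) → ℂ}
    (hfa : ∀ i m, IsAlgebraic ℚ ((f i).coeff m)) (hwa : ∀ j m, IsAlgebraic ℚ ((w j).coeff m))
    (haa : ∀ i, IsAlgebraic ℚ (a i)) (hf : IsEndo d f) (hC : Cl2 r n s δ S t f w) (ha : a ≠ 0)
    {T : Set (MvPolynomial (Fin (ν + 1)) ℂ)} (hT : ∀ g ∈ T, ∃ e, g.IsHomogeneous e)
    (hcur : CurveSet T) :
    ∃ A, {n | ∀ g ∈ T, eval (iter f a n) g = 0} = APSet A := by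
  classical
  by_cases hfin : {n : ℕ | ∀ g ∈ T, eval (iter f a n) g = 0}.Finite
  · obtain ⟨A, hA⟩ := Pool.Agent.Helper72.PN.MainN_finite hfin
    exact ⟨A, hA⟩
  have hchain : ChainS f (jf f) t fun i => {g | ∃ j ∈ S i, w j.castSucc = g} := by
    refine ⟨?_, ?_, ?_, ?_⟩
    · rintro i _ g ⟨j, -, rfl⟩
      exact ⟨⟨_, hC.chain.hom j⟩, hwa _⟩
    · rintro i hi x hx g ⟨j, hj, rfl⟩
      have h1 := hC.chain.inv i hi x (fun l hl => by
        rw [aevalC]
        exact hx _ ⟨l, hl, rfl⟩) j hj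
      simpa only [aevalC] using h1
    · rintro i hi x hx hq g ⟨j, hj, rfl⟩
      have h1 := hC.chain.down i hi x (fun l hl => by
        rw [aevalC]
        exact hx _ ⟨l, hl, rfl⟩) (by rw [aevalC]; exact hq) j hj
      simpa only [aevalC] using h1
    · intro x hx
      refine hC.chain.empty x fun j hj => ?_
      rw [aevalC]
      exact hx _ ⟨j, hj, rfl⟩
  have hmeet : Meets f T := by
    intro U hU _ ⟨p, hp, hne, hpU⟩
    obtain ⟨y, hy0, hyU, hyG⟩ := exists_zero_of_infinite hU hr hC.hom p hp hne hpU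
    refine ⟨y, hy0, hyU, t, _, hchain, s, ?_⟩
    rintro g ⟨j, hj, rfl⟩
    have h1 := hC.incl y (by rw [aevalC]; exact hyG) j hj
    rwa [aevalC] at h1
  obtain ⟨A, hA⟩ := Pool.Agent.Helper72.TH.final2 hf hfa ha (c := 1) one_ne_zero
    (fun i => by rw [one_mul]; exact haa i) hT hcur hmeet hfin hT
  exact ⟨A, hA⟩

/-- **Tame invariant sets which contain a hypersurface**, closed sets of dimension at most one,
over the complex numbers. -/
theorem part2_curve {d r n s : ℕ} (hr : 1 ≤ r) {δ : Fin n → ℕ} {S : ℕ → Finset (Fin n)} {t : ℕ}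
    {f : Fin (ν + 1) → MvPolynomial (Fin (ν + 1)) ℂ}
    {w : Fin (n + 1) → MvPolynomial (Fin (ν + 1)) ℂ}
    {a : Fin (ν + 1) → ℂ} (hf : IsEndo d f) (hC : Cl2 r n s δ S t f w) (ha : a ≠ 0)
    {T : Set (MvPolynomial (Fin (ν + 1)) ℂ)} (hT : ∀ g ∈ T, ∃ e, g.IsHomogeneous e)
    (hdim : ringKrullDim (MvPolynomial (Fin (ν + 1)) ℂ ⧸ Ideal.span T) ≤ 2) :
    ∃ A, {n | ∀ g ∈ T, eval (iter f a n) g = 0} = APSet A := by
  refine curveN_induct_cl (d := d) (N := n + 1) (fun f w => Cl2 r n s δ S t f w) ?_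
    (fun U => ∃ A, U = APSet A) (fun A => ⟨A, rfl⟩) ?_ (unbC ν d) ?_ hf hC ha hT hdim
  · intro k _ _ _ K hK F W _ hC
    exact cl2_spec K hK hC
  · rintro _ _ ⟨A, rfl⟩ ⟨B, rfl⟩
    exact APSet_inter A B
  · intro f w a U hU hwa hC
    have h1 : ∀ g ∈ (U : Set (MvPolynomial (Fin (ν + 1)) ℂ)), ∃ e, g.IsHomogeneous e :=
      fun g hg => hU.hom g (Finset.mem_coe.1 hg)
    have h2 : CurveSet (U : Set (MvPolynomial (Fin (ν + 1)) ℂ)) := curveSet_of_krull h1 hU.dim
    obtain ⟨A, hA⟩ := cl2_alg hr hU.algf hwa hU.algz hU.endo hC hU.ne h1 h2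
    exact ⟨A, hA⟩

/-- A nonzero form in three variables defines a curve. -/
theorem curveSet_plane {g : MvPolynomial (Fin 3) ℂ} {e : ℕ} (hg : g.IsHomogeneous e)
    (hg0 : g ≠ 0) : CurveSet (ν := 2) ({g} : Set (MvPolynomial (Fin 3) ℂ)) := by
  obtain ⟨l, m, hlm⟩ := exists_affine_point hg hg0
  have h0 : (X 0 - C l * X 2 : MvPolynomial (Fin 3) ℂ).IsHomogeneous 1 :=
    (isHomogeneous_X ℂ 0).sub (by simpa using (isHomogeneous_C (Fin 3) l).mul (isHomogeneous_X ℂ 2))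
  have h1 : (X 1 - C m * X 2 : MvPolynomial (Fin 3) ℂ).IsHomogeneous 1 :=
    (isHomogeneous_X ℂ 1).sub (by simpa using (isHomogeneous_C (Fin 3) m).mul (isHomogeneous_X ℂ 2))
  refine curveSet_of_forms (ν := 2) ?_ h0 h1 ?_
  · intro p hp
    rw [Set.mem_singleton_iff] at hp
    exact ⟨e, by rw [hp]; exact hg⟩
  · intro z hz hz0 hz1
    have hg1 : eval z g = 0 := hz g rfl
    have e0 : z 0 = l * z 2 := by
      have h2 : z 0 - l * z 2 = 0 := by simpa using hz0
      linear_combination h2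
    have e1 : z 1 = m * z 2 := by
      have h2 : z 1 - m * z 2 = 0 := by simpa using hz1
      linear_combination h2
    have h3 : z = z 2 • (![l, m, 1] : Fin 3 → ℂ) := by
      funext i
      fin_cases i
      · change z 0 = z 2 * l
        rw [e0, mul_comm]
      · change z 1 = z 2 * m
        rw [e1, mul_comm]
      · change z 2 = z 2 * 1
        rw [mul_one]
    rw [h3, eval_smul_hom (ν := 2) hg, mul_eq_zero, or_iff_left hlm] at hg1
    have h4 : z 2 = 0 := eq_zero_of_pow_eq_zero hg1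
    rw [h3, h4, zero_smul]

/-- The plane: all the closed sets. -/
theorem part2_plane {d r n s : ℕ} (hr : 1 ≤ r) {δ : Fin n → ℕ} {S : ℕ → Finset (Fin n)} {t : ℕ}
    {f : Fin 3 → MvPolynomial (Fin 3) ℂ} {w : Fin (n + 1) → MvPolynomial (Fin 3) ℂ}
    {a : Fin 3 → ℂ} (hf : IsEndo (ν := 2) d f) (hC : Cl2 (ν := 2) r n s δ S t f w) (ha : a ≠ 0)
    {T : Set (MvPolynomial (Fin 3) ℂ)} (hT : ∀ g ∈ T, ∃ e, g.IsHomogeneous e) :
    ∃ A, {n | ∀ g ∈ T, eval (iter f a n) g = 0} = APSet A := by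
  refine plane_induct (d := d) (N := n + 1) (fun f w => Cl2 (ν := 2) r n s δ S t f w)
    (fun U => ∃ A, U = APSet A) (fun A => ⟨A, rfl⟩) ?_ ?_ ?_ f w a hf hC ha hT
  · rintro _ _ ⟨A, rfl⟩ ⟨B, rfl⟩
    exact APSet_inter A B
  · intro k _ _ _ K hK F W _ hC
    exact cl2_spec (ν := 2) K hK hC
  · intro f w a g e hfa hwa haa _ hf hC ha hg
    by_cases hg0 : g = 0
    · obtain ⟨A, hA⟩ := APSet_univ
      refine ⟨A, ?_⟩
      rw [← hA, hg0]
      ext n
      simp
    have hcur : CurveSet (ν := 2) ({g} : Set (MvPolynomial (Fin 3) ℂ)) :=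
      curveSet_plane hg hg0
    obtain ⟨A, hA⟩ := cl2_alg (ν := 2) hr hfa hwa haa hf hC ha (T := {g}) (by
      intro p hp
      rw [Set.mem_singleton_iff] at hp
      exact ⟨e, by rw [hp]; exact hg⟩) hcur
    refine ⟨A, ?_⟩
    rw [← hA]
    ext n
    simp only [Set.mem_ofPred_eq, Set.mem_singleton_iff, forall_eq]

/-- **Tame invariant sets which contain a hypersurface, over the complex numbers**: the closed sets
of dimension at most one. -/
theorem partTwo {d k s : ℕ} {f : Fin (ν + 1) → MvPolynomial (Fin (ν + 1)) ℂ} (hf : IsEndo d f)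
    {G : MvPolynomial (Fin (ν + 1)) ℂ} {r : ℕ} (hr : 1 ≤ r) (hG : G.IsHomogeneous r)
    {Z : ℕ → Set (MvPolynomial (Fin (ν + 1)) ℂ)} (hZ : ChainC f (jf f) k Z)
    (hGZ : ∀ x : Fin (ν + 1) → ℂ, eval x G = 0 → ∀ g ∈ Z 0, eval (iter f x s) g = 0)
    {a : Fin (ν + 1) → ℂ} (ha : a ≠ 0) {V : Set (MvPolynomial (Fin (ν + 1)) ℂ)}
    (hV : ∀ g ∈ V, ∃ e, g.IsHomogeneous e)
    (hdim : ringKrullDim (MvPolynomial (Fin (ν + 1)) ℂ ⧸ Ideal.span V) ≤ 2) :
    ∃ T : Finset (ℕ × ℕ), {n : ℕ | ∀ g ∈ V, eval ((fun (x : Fin (ν + 1) → ℂ)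
        (i : Fin (ν + 1)) => eval x (f i))^[n] a) g = 0} =
      {n : ℕ | ∃ q ∈ T, ∃ m : ℕ, n = q.1 * m + q.2} := by
  classical
  obtain ⟨n, W, δ, S, hch, hSZ⟩ := exists_chain hZ
  have hC : Cl2 r n s δ S k f (Fin.snoc W G) := by
    refine ⟨?_, ?_, ?_⟩
    · rw [Fin.snoc_last]
      exact hG
    · simp only [Fin.snoc_castSucc]
      exact hch
    · intro x hx j hj
      rw [Fin.snoc_last, aevalC] at hx
      rw [Fin.snoc_castSucc, aevalC]
      exact hGZ x hx _ (hSZ 0 (Nat.zero_le k) j hj)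
  obtain ⟨A, hA⟩ := part2_curve hr hf hC ha hV hdim
  exact ⟨A, hA⟩

/-- The same for the plane: all the closed sets. -/
theorem partTwo_plane {d k s : ℕ} {f : Fin 3 → MvPolynomial (Fin 3) ℂ}
    (hf : IsEndo (ν := 2) d f) {G : MvPolynomial (Fin 3) ℂ} {r : ℕ} (hr : 1 ≤ r)
    (hG : G.IsHomogeneous r) {Z : ℕ → Set (MvPolynomial (Fin 3) ℂ)}
    (hZ : ChainC (ν := 2) f (jf (ν := 2) f) k Z)
    (hGZ : ∀ x : Fin 3 → ℂ, eval x G = 0 → ∀ g ∈ Z 0, eval (iter f x s) g = 0)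
    {a : Fin 3 → ℂ} (ha : a ≠ 0) {V : Set (MvPolynomial (Fin 3) ℂ)}
    (hV : ∀ g ∈ V, ∃ e, g.IsHomogeneous e) :
    ∃ T : Finset (ℕ × ℕ), {n : ℕ | ∀ g ∈ V, eval ((fun (x : Fin 3 → ℂ)
        (i : Fin 3) => eval x (f i))^[n] a) g = 0} =
      {n : ℕ | ∃ q ∈ T, ∃ m : ℕ, n = q.1 * m + q.2} := by
  classical
  obtain ⟨n, W, δ, S, hch, hSZ⟩ := exists_chain (ν := 2) hZ
  have hC : Cl2 (ν := 2) r n s δ S k f (Fin.snoc W G) := by
    refine ⟨?_, ?_, ?_⟩
    · rw [Fin.snoc_last]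
      exact hG
    · simp only [Fin.snoc_castSucc]
      exact hch
    · intro x hx j hj
      rw [Fin.snoc_last, aevalC (ν := 2)] at hx
      rw [Fin.snoc_castSucc, aevalC (ν := 2)]
      exact hGZ x hx _ (hSZ 0 (Nat.zero_le k) j hj)
  obtain ⟨A, hA⟩ := part2_plane hr hf hC ha hV
  exact ⟨A, hA⟩

end Pool.Agent.Helper30.THC
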