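import Mathlib

/-!
# Closed subsets of the plane: the whole plane or dimension at most one
-/

set_option autoImplicit false

namespace Pool.Agent.Helper30.THC

open MvPolynomial

/-- Closed subsets of the plane which are not the plane have dimension at most one: the Krull
dimension of the homogeneous coordinate ring is at most two. -/
theorem krull_plane {S : Set (MvPolynomial (Fin 3) ℂ)} {g : MvPolynomial (Fin 3) ℂ} (hg : g ∈ S)
    (hg0 : g ≠ 0) : ringKrullDim (MvPolynomial (Fin 3) ℂ ⧸ Ideal.span S) ≤ 2 := by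
  have h1 : ringKrullDim (MvPolynomial (Fin 3) ℂ ⧸ Ideal.span {g}) + 1 ≤
      ringKrullDim (MvPolynomial (Fin 3) ℂ) :=
    ringKrullDim_quotient_succ_le_of_nonZeroDivisor (mem_nonZeroDivisors_of_ne_zero hg0)
  have h2 : ringKrullDim (MvPolynomial (Fin 3) ℂ) = 2 + 1 := by
    rw [MvPolynomial.ringKrullDim_of_isNoetherianRing, ringKrullDim_eq_zero_of_field]
    norm_num
  have h3 : ringKrullDim (MvPolynomial (Fin 3) ℂ ⧸ Ideal.span S) ≤
      ringKrullDim (MvPolynomial (Fin 3) ℂ ⧸ Ideal.span {g}) :=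
    ringKrullDim_le_of_surjective
      (Ideal.Quotient.factor (Ideal.span_mono (Set.singleton_subset_iff.2 hg)))
      (Ideal.Quotient.factor_surjective _)
  rw [h2] at h1
  refine h3.trans ?_
  revert h1
  generalize ringKrullDim (MvPolynomial (Fin 3) ℂ ⧸ Ideal.span {g}) = x
  induction x using WithBot.recBotCoe with
  | bot => exact fun _ => bot_le
  | coe a =>
    intro h1
    have h4 : ((a + 1 : ℕ∞) : WithBot ℕ∞) ≤ ((2 + 1 : ℕ∞) : WithBot ℕ∞) := h1
    have h5 : a + 1 ≤ 2 + 1 := WithBot.coe_le_coe.1 h4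
    exact WithBot.coe_le_coe.2 ((ENat.add_le_add_iff_right ENat.one_ne_top).1 h5)

/-- From closed sets of dimension at most one to all closed subsets of the plane. -/
theorem plane_of_dim {p : ℕ → Fin 3 → ℂ}
    (h : ∀ V : Set (MvPolynomial (Fin 3) ℂ), (∀ g ∈ V, ∃ e : ℕ, g.IsHomogeneous e) →
      ringKrullDim (MvPolynomial (Fin 3) ℂ ⧸ Ideal.span V) ≤ 2 →
      ∃ T : Finset (ℕ × ℕ), {n : ℕ | ∀ g ∈ V, eval (p n) g = 0} =
        {n : ℕ | ∃ q ∈ T, ∃ m : ℕ, n = q.1 * m + q.2})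
    {V : Set (MvPolynomial (Fin 3) ℂ)} (hV : ∀ g ∈ V, ∃ e : ℕ, g.IsHomogeneous e) :
    ∃ T : Finset (ℕ × ℕ), {n : ℕ | ∀ g ∈ V, eval (p n) g = 0} =
      {n : ℕ | ∃ q ∈ T, ∃ m : ℕ, n = q.1 * m + q.2} := by
  by_cases h0 : ∀ g ∈ V, g = 0
  · refine ⟨{(1, 0)}, ?_⟩
    ext n
    constructor
    · intro _
      exact ⟨(1, 0), Finset.mem_singleton_self _, n, by simp⟩
    · intro _ g hg
      rw [h0 g hg, map_zero]
  · push Not at h0
    obtain ⟨g, hg, hg0⟩ := h0
    exact h V hV (krull_plane hg hg0)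

end Pool.Agent.Helper30.THC
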