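import Pool.Agent.Helper30.THC.Part1N

/-!
# Tame invariant hypersurfaces over the complex numbers: sets of forms
-/

set_option autoImplicit false

namespace Pool.Agent.Helper30.THC

open MvPolynomial
open Pool.Agent.Helper16 (Place IsFunctionField)
open Pool.Agent.Helper36 (step iter iter_zero iter_succ iter_succ' iter_add iter_map APSet
  APSet_univ)
open Pool.Agent.Helper38.TQ
open Pool.Agent.Helper30.TKN
open Pool.Agent.Helper30.RED
open Pool.Agent.Helper72.TH (Chain)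

variable {ν : ℕ}

/-- The chain of closed sets given by sets of forms. -/
structure ChainC (f : Fin (ν + 1) → MvPolynomial (Fin (ν + 1)) ℂ)
    (q : MvPolynomial (Fin (ν + 1)) ℂ) (k : ℕ)
    (Z : ℕ → Set (MvPolynomial (Fin (ν + 1)) ℂ)) : Prop where
  form : ∀ i ≤ k, ∀ g ∈ Z i, ∃ e, g.IsHomogeneous e
  inv : ∀ i < k, ∀ x : Fin (ν + 1) → ℂ, (∀ g ∈ Z i, eval x g = 0) →
    ∀ g ∈ Z i, eval (fun l => eval x (f l)) g = 0
  down : ∀ i < k, ∀ x : Fin (ν + 1) → ℂ, (∀ g ∈ Z i, eval x g = 0) → eval x q = 0 →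
    ∀ g ∈ Z (i + 1), eval (fun l => eval x (f l)) g = 0
  empty : ∀ x : Fin (ν + 1) → ℂ, (∀ g ∈ Z k, eval x g = 0) → x = 0

/-- Finitely many of the forms define the closed sets of the chain. -/
theorem exists_chain {f : Fin (ν + 1) → MvPolynomial (Fin (ν + 1)) ℂ}
    {q : MvPolynomial (Fin (ν + 1)) ℂ} {k : ℕ} {Z : ℕ → Set (MvPolynomial (Fin (ν + 1)) ℂ)}
    (hZ : ChainC f q k Z) :
    ∃ (n : ℕ) (W : Fin n → MvPolynomial (Fin (ν + 1)) ℂ) (δ : Fin n → ℕ)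
      (S : ℕ → Finset (Fin n)), Chain ℂ f q W δ S k ∧ ∀ i ≤ k, ∀ j ∈ S i, W j ∈ Z i := by
  classical
  choose t htZ ht using fun i => exists_finite_subfamily (Z i)
  set U : Finset (MvPolynomial (Fin (ν + 1)) ℂ) := (Finset.range (k + 1)).biUnion t with hU
  have hUh : ∀ g : U, ∃ e, (g : MvPolynomial (Fin (ν + 1)) ℂ).IsHomogeneous e := by
    rintro ⟨g, hg⟩
    obtain ⟨i, hi, hgi⟩ := Finset.mem_biUnion.1 hg
    exact hZ.form i (by
      have := Finset.mem_range.1 hi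
      omega) g (htZ i hgi)
  set e := U.equivFin with he
  let W : Fin U.card → MvPolynomial (Fin (ν + 1)) ℂ := fun j => (e.symm j : U)
  choose δ hδ using fun j : Fin U.card => hUh (e.symm j)
  set S : ℕ → Finset (Fin U.card) := fun i => Finset.univ.filter fun j => W j ∈ t i with hS
  have hmemS : ∀ i j, j ∈ S i ↔ W j ∈ t i := by
    intro i j
    rw [hS, Finset.mem_filter]
    exact ⟨fun h => h.2, fun h => ⟨Finset.mem_univ _, h⟩⟩
  have hZS : ∀ i ≤ k, ∀ y : Fin (ν + 1) → ℂ, (∀ j ∈ S i, aeval y (W j) = 0) →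
      ∀ g ∈ Z i, eval y g = 0 := by
    intro i hi y hy
    refine ht i y fun g hg => ?_
    have hgU : g ∈ U := Finset.mem_biUnion.2 ⟨i, Finset.mem_range.2 (by omega), hg⟩
    have h1 := hy (e ⟨g, hgU⟩) (by
      rw [hmemS]
      change ((e.symm (e ⟨g, hgU⟩) : U) : MvPolynomial (Fin (ν + 1)) ℂ) ∈ t i
      rw [Equiv.symm_apply_apply]
      exact hg)
    rw [aevalC] at h1
    change eval y ((e.symm (e ⟨g, hgU⟩) : U) : MvPolynomial (Fin (ν + 1)) ℂ) = 0 at h1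
    rw [Equiv.symm_apply_apply] at h1
    exact h1
  have hSZ : ∀ i, ∀ j ∈ S i, W j ∈ Z i := fun i j hj => htZ i ((hmemS i j).1 hj)
  refine ⟨U.card, W, δ, S, ⟨hδ, ?_, ?_, ?_⟩, fun i _ => hSZ i⟩
  · intro i hi x hx j hj
    simp only [aevalC]
    exact hZ.inv i hi x (hZS i hi.le x hx) _ (hSZ i j hj)
  · intro i hi x hx hq j hj
    rw [aevalC] at hq
    simp only [aevalC]
    exact hZ.down i hi x (hZS i hi.le x hx) hq _ (hSZ (i + 1) j hj)
  · intro x hx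
    exact hZ.empty x (hZS k le_rfl x hx)

/-- **Tame invariant hypersurfaces over the complex numbers.** -/
theorem partOne {d k : ℕ} {f : Fin (ν + 1) → MvPolynomial (Fin (ν + 1)) ℂ} (hf : IsEndo d f)
    {R : MvPolynomial (Fin (ν + 1)) ℂ} {r : ℕ} (hr : 1 ≤ r) (hR : R.IsHomogeneous r)
    {Z : ℕ → Set (MvPolynomial (Fin (ν + 1)) ℂ)} (hZ : ChainC f (jf f * R) k Z)
    (hRZ : ∀ x : Fin (ν + 1) → ℂ, eval x R = 0 → ∀ g ∈ Z 0, eval (fun l => eval x (f l)) g = 0)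
    {a : Fin (ν + 1) → ℂ} (ha : a ≠ 0) {V : Set (MvPolynomial (Fin (ν + 1)) ℂ)}
    (hV : ∀ g ∈ V, ∃ e, g.IsHomogeneous e) :
    ∃ T : Finset (ℕ × ℕ), {n : ℕ | ∀ g ∈ V, eval ((fun (x : Fin (ν + 1) → ℂ)
        (i : Fin (ν + 1)) => eval x (f i))^[n] a) g = 0} =
      {n : ℕ | ∃ q ∈ T, ∃ m : ℕ, n = q.1 * m + q.2} := by
  classical
  obtain ⟨n, W, δ, S, hch, hSZ⟩ := exists_chain hZ
  have hC : Cl1 r n δ S k f (Fin.snoc W R) := by
    refine ⟨?_, ?_, ?_⟩
    · rw [Fin.snoc_last]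
      exact hR
    · simp only [Fin.snoc_last, Fin.snoc_castSucc]
      exact hch
    · intro x hx j hj
      rw [Fin.snoc_last, aevalC] at hx
      simp only [Fin.snoc_castSucc, aevalC]
      exact hRZ x hx _ (hSZ 0 (Nat.zero_le k) j hj)
  obtain ⟨A, hA⟩ := part1_all hr hf hC ha hV
  exact ⟨A, hA⟩

end Pool.Agent.Helper30.THC
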