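import Pool.Agent.Helper30.THC.CertR
import Pool.Agent.Helper30.THC.EtaleG
import Pool.Agent.Helper30.THC.FFAbs
import Pool.Agent.Helper30.THC.Part1

/-!
# Tame invariant sets over function fields: orbits of unbounded height
-/

set_option autoImplicit false

namespace Pool.Agent.Helper30.THC

open MvPolynomial
open Pool.Agent.Helper16 (Place IsFunctionField)
open Pool.Agent.Helper36 (step iter iter_zero iter_succ iter_succ' iter_add iter_map APSet)
open Pool.Agent.Helper38.TQ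
open Pool.Agent.Helper30.TKN
open Pool.Agent.Helper30.RED
open Pool.Agent.Helper72.TH (Chain)
open Pool.Agent.Helper38.Dml (pmap pjac GoodAt)

variable {ν : ℕ}

/-- If the specialised orbit meets the hypersurface, then the orbit has the property. -/
theorem dml_of_hit_place {k K : Type} [Field k] [IsAlgClosed k] [Field K] [Algebra k K]
    [Algebra k ℂ] [Algebra K ℂ] [IsScalarTower k K ℂ] (hK : IsFunctionField k K) {d : ℕ}
    {F : Fin (ν + 1) → MvPolynomial (Fin (ν + 1)) K} (hF : ∀ i, (F i).IsHomogeneous d)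
    {x : Fin (ν + 1) → K} (hx : x ≠ 0) {b : Place k K}
    {f : Fin (ν + 1) → MvPolynomial (Fin (ν + 1)) k} (hf : GoodRed d b F f)
    {z : Fin (ν + 1) → k} (hz : Red b x z) {n : ℕ} {δ : Fin n → ℕ} {S : ℕ → Finset (Fin n)}
    {t : ℕ} {ρ : MvPolynomial (Fin (ν + 1)) k} {w : Fin n → MvPolynomial (Fin (ν + 1)) k}
    (hc : Chain ℂ f (jf f * ρ) w δ S t)
    (hs : ∀ x : Fin (ν + 1) → ℂ, aeval x ρ = 0 →
      ∀ j ∈ S 0, aeval (fun l => aeval x (f l)) (w j) = 0)
    {m : ℕ} (hm : eval (iter f z m) ρ = 0) (c : ℂ) (hc0 : c ≠ 0) :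
    Pool.Agent.Helper38.Sym.DMLgen (fun i => map (algebraMap K ℂ) (F i))
      (fun i => c * algebraMap K ℂ (x i)) := by
  classical
  have hnz : ∀ y : Fin (ν + 1) → ℂ, (∀ i, aeval y (f i) = 0) → y = 0 := by
    intro y hy
    refine (hf.endo.map (k' := ℂ)).nz y fun i => ?_
    rw [← aeval_eq_eval_map]
    exact hy i
  obtain ⟨S₀, hS₀⟩ := (certR_of_chain hnz hc hs).descend
  obtain ⟨i₀, hi₀⟩ : ∃ i, z i ≠ 0 := Function.ne_iff.1 hz.1
  refine etale_gen hK hF x hx b f hf z hz
    ((S₀ ∪ ρ.coeffs) ∪ ((Finset.univ.biUnion fun j => (w j).coeffs) ∪ {(z i₀)⁻¹})) ?_ c hc0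
  intro p _ A _ _ j ψ FA zA hj hS hFA hzA
  have hρ : ∃ RA, map j RA = ρ := NonCrit_liftMv j ρ fun c hc => hS c (by
    simp only [Finset.mem_union]; tauto)
  obtain ⟨RA, hRA⟩ := hρ
  have hw : ∀ l, ∃ WA, map j WA = w l := fun l => NonCrit_liftMv j (w l) fun c hc => hS c (by
    have h1 : c ∈ Finset.univ.biUnion fun j => (w j).coeffs :=
      Finset.mem_biUnion.2 ⟨l, Finset.mem_univ _, hc⟩
    simp only [Finset.mem_union]; tauto)
  choose WA hWA using hw
  have hcert := hS₀ A j hj (fun c hc => hS c (by simp only [Finset.mem_union]; tauto))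
    FA RA WA hFA hRA hWA
  have hcertψ := hcert.map ψ
  refine goodAt_of_cert hcertψ (m := m) ?_ ?_
  · intro h0
    obtain ⟨u, hu⟩ := hS (z i₀)⁻¹ (by simp)
    have h1 : zA i₀ * u = 1 := by
      apply hj
      rw [map_mul, hzA, hu, map_one, mul_inv_cancel₀ hi₀]
    have h2 := congrArg ψ h1
    have h3 : ψ (zA i₀) = 0 := congrFun h0 i₀
    rw [map_mul, h3, zero_mul, map_one] at h2
    exact zero_ne_one h2
  · rw [← map_pmap_iterate ψ FA zA m, ← Pool.Agent.Helper38.Sym.map_eval_gen]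
    have h1 : eval ((pmap FA)^[m] zA) RA = 0 := by
      apply hj
      rw [Pool.Agent.Helper38.Sym.map_eval_gen, map_pmap_iterate j FA zA m, hRA, funext hFA,
        funext hzA, ← iter_eq_pmap, hm, map_zero]
    rw [h1, map_zero]

open Pool.Agent.Helper72.TH in
/-- **Function fields, unbounded heights.** -/
theorem cl1_unb {k : Type} [Field k] [IsAlgClosed k] [Algebra k ℂ] (K : IntermediateField k ℂ)
    (hK : IsFunctionField k K) {d r n : ℕ} (hr : 1 ≤ r) {δ : Fin n → ℕ}
    {S : ℕ → Finset (Fin n)} {t : ℕ} {F : Fin (ν + 1) → MvPolynomial (Fin (ν + 1)) K}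
    {W : Fin (n + 1) → MvPolynomial (Fin (ν + 1)) K} {x : Fin (ν + 1) → K}
    (hF : IsEndo d fun i => map (algebraMap K ℂ) (F i))
    (hC : Cl1 r n δ S t (fun i => map (algebraMap K ℂ) (F i))
      (fun j => map (algebraMap K ℂ) (W j))) (hx : x ≠ 0)
    (hunb : ∀ B : ℤ, ∃ n, B < ht k (iter F x n)) (c : ℂ) (hc0 : c ≠ 0) :
    Pool.Agent.Helper38.Sym.DMLgen (fun i => map (algebraMap K ℂ) (F i))
      (fun i => c * algebraMap K ℂ (x i)) := by
  classical
  letI : Height.AdmissibleAbsValues K := ffAbs hK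
  have hhom : ∀ i, (F i).IsHomogeneous d := fun i => homog_of_endo hF i
  have hnz : ∀ y : Fin (ν + 1) → ℂ, (∀ i, aeval y (F i) = 0) → y = 0 :=
    growth_aeval_zero hF
  have hne : ∀ n, iter F x n ≠ 0 := fun n => iter_ne_zeroK hF hx n
  have hchain : Chain ℂ F (jf F * W (Fin.last n)) (fun j => W j.castSucc) δ S t := by
    refine chain_map.1 ?_
    rw [map_mul, ← map_jf']
    exact hC.chain
  have hstart : ∀ z : Fin (ν + 1) → ℂ, aeval z (W (Fin.last n)) = 0 →
      ∀ j ∈ S 0, aeval (fun l => aeval z (F l)) (W j.castSucc) = 0 := by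
    intro z hz j hj
    have h1 := hC.start z (by rw [aevalC, ← aeval_eq_eval_map]; exact hz) j hj
    simp only [aevalC, ← aeval_eq_eval_map] at h1
    exact h1
  have hRh : (W (Fin.last n)).IsHomogeneous r := hom_of_map (algebraMap K ℂ) hC.hom
  -- the bad places
  obtain ⟨A₁, hA₁, h₁⟩ := chain_spec hK hchain
  obtain ⟨A₂, hA₂, h₂⟩ := all_places (k := k) (K := K) (ι := {j // j ∈ S 0})
    (P := fun j b => ∀ (h : Unit → MvPolynomial (Fin (ν + 1)) k)
      (γ : MvPolynomial (Fin (ν + 1)) k), (∀ u : Unit, RedP b (W (Fin.last n)) (h u)) →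
      RedP b (aeval F (W j.1.castSucc)) γ →
      ∀ z : Fin (ν + 1) → ℂ, (∀ u, aeval z (h u) = 0) → aeval z γ = 0) (by
    rintro ⟨j, hj⟩
    obtain ⟨A, hA, h⟩ := incl_spec hK (κ := Unit) (fun _ => W (Fin.last n))
      (aeval F (W j.castSucc)) (fun z hz => by
        rw [aeval_comp]
        exact hstart z (hz ()) j hj)
    exact ⟨A, hA, h⟩)
  have hA₃ : (⋃ j, {b : Place k K | ¬ ∀ m, b.val ((W j).coeff m) ≤ 1}).Finite :=
    Set.finite_iUnion fun j => Good2_fin hK (W j)
  have hA₄ := good_finite hK hF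
  set A₀ : Set (Place k K) := (A₁ ∪ A₂) ∪
    ((⋃ j, {b : Place k K | ¬ ∀ m, b.val ((W j).coeff m) ≤ 1}) ∪ {b | ¬ Good d b F}) with hA₀
  have hA₀f : A₀.Finite := (hA₁.union hA₂).union (hA₃.union hA₄)
  have hB : (absOf (k := k) (K := K) '' A₀).Finite := hA₀f.image _
  -- the hitting theorem
  obtain ⟨m, v, hv, hvB, hsm⟩ := exists_hit (L := ℂ) (K := K)
    (by have := hF.two_le; omega) hhom hnz hr hRh (k := t)
    (fun T hT y hy => chain_count hnz hchain hstart T hT y fun j hj => by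
      have h1 := hy j hj
      have h2 : ∀ j, iter (fun i => map (algebraMap K ℂ) (F i)) y j = iter F y j := by
        intro j
        induction j with
        | zero => rfl
        | succ j ih =>
          rw [iter_succ, iter_succ, ih]
          funext i
          exact aeval_map_algebraMap ℂ _ _
      rwa [h2] at h1)
    hB (by
      obtain ⟨b, hb⟩ := exists_absOf_notMem hK hB
      exact ⟨absOf b, ⟨b, rfl⟩, hb⟩) hne (tendsto_ffAbs hK hF hx hunb)
  obtain ⟨b, rfl⟩ : ∃ b, absOf b = v := hv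
  have hb : b ∉ A₀ := fun h => hvB ⟨b, h, rfl⟩
  simp only [hA₀, Set.mem_union, not_or] at hb
  obtain ⟨⟨hb1, hb2⟩, hb3, hb4⟩ := hb
  have hgood : Good d b F := by
    by_contra h
    exact hb4 h
  obtain ⟨f, hf⟩ := hgood
  have hint : ∀ j, ∀ m, b.val ((W j).coeff m) ≤ 1 := by
    intro j
    by_contra hcon
    exact hb3 (Set.mem_iUnion.2 ⟨j, hcon⟩)
  choose w hw using fun j => redP_exists' hK b (hint j)
  obtain ⟨z, hz⟩ := exists_red hK b x hx
  have hcf : Chain ℂ f (jf f * w (Fin.last n)) (fun j => w j.castSucc) δ S t :=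
    h₁ b hb1 f _ _ hf.red ((redP_jf hf.red).mul (hw _)) fun j => hw _
  have hsf : ∀ x : Fin (ν + 1) → ℂ, aeval x (w (Fin.last n)) = 0 →
      ∀ j ∈ S 0, aeval (fun l => aeval x (f l)) (w j.castSucc) = 0 := by
    intro y hy j hj
    have h3 := h₂ b hb2 ⟨j, hj⟩ (fun _ => w (Fin.last n)) _ (fun _ => hw _)
      (redP_aeval (hw _) hf.red) y fun _ => hy
    rwa [aeval_comp] at h3
  have hm : eval (iter f z m) (w (Fin.last n)) = 0 := by
    rw [red_eval_iff hRh (hw _) (hf.iter hhom hz m), ← sm_absOf_iff b _ _ (hne m)]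
    exact hsm
  exact dml_of_hit_place hK hhom hx hf hz hcf hsf hm c hc0

end Pool.Agent.Helper30.THC
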